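import Mathlib

/-!
The logarithmic derivative of the decaying solution of the Airy equation.
-/

namespace Pool.Agent.Lib.MP_f387d3_mp.AI

open Filter Topology

/-- a function with a nonnegative derivative on a half line is nondecreasing there -/
theorem ab_mono {f f' : ℝ → ℝ} (a : ℝ) (h : ∀ s, HasDerivAt f (f' s) s)
    (hn : ∀ s, a ≤ s → 0 ≤ f' s) {x y : ℝ} (hx : a ≤ x) (hxy : x ≤ y) : f x ≤ f y := by
  have hm : MonotoneOn f (Set.Ici a) := by
    apply monotoneOn_of_deriv_nonneg (convex_Ici a)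
    · exact fun s _ => (h s).continuousAt.continuousWithinAt
    · exact fun s _ => (h s).differentiableAt.differentiableWithinAt
    · intro s hs
      rw [(h s).deriv]
      exact hn s (interior_subset hs)
  exact hm hx (le_trans hx hxy) hxy

/-- `A' < 0` on `[0, ∞)` (otherwise `A` is nondecreasing after that point) and `A'` is
nondecreasing there, so `A' → 0`. `q = A' ^ 2 - s * A ^ 2` has derivative `-A ^ 2`. If `q s₀ < 0`
then `s * A ^ 2 ≥ m > 0` after `s₀`, so `s * A ≥ sqrt (m * s₀)` and `A'` is unbounded; so `q ≥ 0`,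
`s * A ^ 2 ≤ A' ^ 2 → 0` and `q → 0`. For fixed `s₀` the function `A ^ 2 / (2 sqrt s₀) - q` is
nonincreasing on `[s₀, ∞)` (there `A' ≤ -sqrt s₀ * A`) and tends to zero. -/
theorem airy_bounds {A A' : ℝ → ℝ} (h1 : ∀ s, HasDerivAt A (A' s) s)
    (h2 : ∀ s, HasDerivAt A' (s * A s) s) (h3 : Tendsto A atTop (𝓝 0))
    (h4 : ∀ s, 0 ≤ s → 0 < A s) (s : ℝ) (hs : 0 < s) :
    A' s < 0 ∧ s * A s ^ 2 ≤ A' s ^ 2 ∧ A' s ^ 2 ≤ (s + 1 / (2 * Real.sqrt s)) * A s ^ 2 := by
  have hmono : ∀ x y, 0 ≤ x → x ≤ y → A' x ≤ A' y := fun x y hx hxy =>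
    ab_mono 0 h2 (fun u hu => mul_nonneg hu (h4 u hu).le) hx hxy
  have hneg : ∀ t, 0 ≤ t → A' t < 0 := by
    intro t ht
    by_contra hc
    have hc' : 0 ≤ A' t := not_lt.mp hc
    have h5 : A t ≤ 0 := by
      apply ge_of_tendsto h3
      filter_upwards [eventually_ge_atTop t] with u hu
      exact ab_mono t h1 (fun v hv => le_trans hc' (hmono t v ht hv)) le_rfl hu
    exact absurd (h4 t ht) (not_lt.mpr h5)
  have hsmall : ∀ ε : ℝ, 0 < ε → ∃ u, s ≤ u ∧ -ε < A' u := by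
    intro ε hε
    by_contra hc
    have hc' : ∀ u, s ≤ u → A' u ≤ -ε := fun u hu => not_lt.mp fun h => hc ⟨u, hu, h⟩
    have hd : ∀ u, HasDerivAt (fun v => -A v - ε * v) (-A' u - ε) u := by
      intro u
      have := (h1 u).neg.sub ((hasDerivAt_id u).const_mul ε)
      rw [mul_one] at this
      exact this
    have hA := h4 s hs.le
    have hu : s ≤ s + A s / ε := le_add_of_nonneg_right (div_nonneg hA.le hε.le)
    have h6 := ab_mono s hd (fun v hv => by have := hc' v hv; linarith) le_rfl hu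
    have h7 := h4 (s + A s / ε) (le_trans hs.le hu)
    have h8 : ε * (s + A s / ε) = ε * s + A s := by field_simp
    rw [h8] at h6
    linarith
  have hq : ∀ u, HasDerivAt (fun v => A' v ^ 2 - v * A v ^ 2) (-A u ^ 2) u := by
    intro u
    have := ((h2 u).mul (h2 u)).sub ((hasDerivAt_id u).mul ((h1 u).mul (h1 u)))
    have e : (fun v => A' v ^ 2 - v * A v ^ 2) = (A' * A' - id * (A * A)) := by
      funext v; simp [sq]
    rw [e]
    refine this.congr_deriv ?_
    simp only [id, Pi.mul_apply]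
    ring
  have hq0 : ∀ t, 0 < t → t * A t ^ 2 ≤ A' t ^ 2 := by
    intro t ht
    by_contra hc
    have hm : 0 < t * A t ^ 2 - A' t ^ 2 := sub_pos.mpr (not_le.mp hc)
    set m := t * A t ^ 2 - A' t ^ 2 with hmdef
    have hκ : 0 < Real.sqrt (t * m) := Real.sqrt_pos.mpr (mul_pos ht hm)
    set κ := Real.sqrt (t * m) with hκdef
    have h5 : ∀ u, t ≤ u → κ ≤ u * A u := by
      intro u hu
      have h6 := ab_mono t (fun v => (hq v).neg) (fun v _ => by
        rw [neg_neg]; exact sq_nonneg _) le_rfl hu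
      simp only [Pi.neg_apply] at h6
      have hu0 : 0 < u := lt_of_lt_of_le ht hu
      have h7 : m ≤ u * A u ^ 2 := by nlinarith [sq_nonneg (A' u)]
      rw [hκdef]
      apply Real.sqrt_le_iff.mpr
      refine ⟨(mul_pos hu0 (h4 u hu0.le)).le, ?_⟩
      calc t * m ≤ u * (u * A u ^ 2) := mul_le_mul hu h7 hm.le hu0.le
        _ = (u * A u) ^ 2 := by ring
    have hd : ∀ u, HasDerivAt (fun v => A' v - κ * v) (u * A u - κ) u := by
      intro u
      have := (h2 u).sub ((hasDerivAt_id u).const_mul κ)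
      rw [mul_one] at this
      exact this
    have hA := hneg t ht.le
    have hu : t ≤ t + -A' t / κ := le_add_of_nonneg_right (div_nonneg (by linarith) hκ.le)
    have h6 := ab_mono t hd (fun v hv => sub_nonneg.mpr (h5 v hv)) le_rfl hu
    have h7 := hneg (t + -A' t / κ) (le_trans ht.le hu)
    have h8 : κ * (t + -A' t / κ) = κ * t - A' t := by field_simp; ring
    rw [h8] at h6
    linarith
  refine ⟨hneg s hs.le, hq0 s hs, ?_⟩
  have hr : 0 < Real.sqrt s := Real.sqrt_pos.mpr hs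
  have hrr : Real.sqrt s ^ 2 = s := Real.sq_sqrt hs.le
  set r := Real.sqrt s with hrdef
  have hd : ∀ u, HasDerivAt (fun v => A' v ^ 2 - v * A v ^ 2 - 1 / (2 * r) * (A v * A v))
      (-A u ^ 2 - 1 / (2 * r) * (A' u * A u + A u * A' u)) u := fun u =>
    (hq u).sub (((h1 u).mul (h1 u)).const_mul (1 / (2 * r)))
  have hpos : ∀ u, s ≤ u → 0 ≤ -A u ^ 2 - 1 / (2 * r) * (A' u * A u + A u * A' u) := by
    intro u hu
    have hu0 : 0 < u := lt_of_lt_of_le hs hu
    have hA := h4 u hu0.le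
    have hn := hneg u hu0.le
    have h5 : r * A u ≤ -A' u := by
      refine (abs_le_of_sq_le_sq' ?_ (by linarith)).2
      calc (r * A u) ^ 2 = s * A u ^ 2 := by rw [mul_pow, hrr]
        _ ≤ u * A u ^ 2 := mul_le_mul_of_nonneg_right hu (sq_nonneg _)
        _ ≤ A' u ^ 2 := hq0 u hu0
        _ = (-A' u) ^ 2 := by ring
    have e : -A u ^ 2 - 1 / (2 * r) * (A' u * A u + A u * A' u) = A u * (-A' u - r * A u) / r := by
      field_simp
      ring
    rw [e]
    exact div_nonneg (mul_nonneg hA.le (sub_nonneg.mpr h5)) hr.le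
  have key : A' s ^ 2 - s * A s ^ 2 - 1 / (2 * r) * (A s * A s) ≤ 0 := by
    apply le_of_forall_pos_le_add
    intro ε hε
    obtain ⟨u, hu, hε'⟩ := hsmall (Real.sqrt ε) (Real.sqrt_pos.mpr hε)
    have hu0 : 0 < u := lt_of_lt_of_le hs hu
    have h6 := ab_mono s hd hpos le_rfl hu
    have hn := hneg u hu0.le
    have h7 : A' u ^ 2 ≤ ε := by
      have h9 : Real.sqrt ε ^ 2 = ε := Real.sq_sqrt hε.le
      nlinarith [Real.sqrt_nonneg ε]
    have h8 : 0 ≤ u * A u ^ 2 := mul_nonneg hu0.le (sq_nonneg _)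
    have h9 : 0 ≤ 1 / (2 * r) * (A u * A u) := mul_nonneg (by positivity) (mul_self_nonneg _)
    linarith
  have e : (s + 1 / (2 * r)) * A s ^ 2 = s * A s ^ 2 + 1 / (2 * r) * (A s * A s) := by ring
  rw [e]
  linarith

/-- signs near the first critical point: `A'` is strictly decreasing where `s < 0 < A s` -/
theorem airy_signs {A A' : ℝ → ℝ} {c : ℝ} (h1 : ∀ s, HasDerivAt A (A' s) s)
    (h2 : ∀ s, HasDerivAt A' (s * A s) s) (h3 : Tendsto A atTop (𝓝 0)) (hc : 0 < c)
    (h4 : ∀ s, -c ≤ s → 0 < A s) (h5 : A' (-c) = 0) :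
    (∀ s, -c < s → A' s < 0) ∧
      ∃ δ : ℝ, 0 < δ ∧ (∀ s, -c - δ ≤ s → 0 < A s) ∧ ∀ s, -c - δ ≤ s → s < -c → 0 < A' s := by
  have hA : Continuous A := continuous_iff_continuousAt.2 fun s => (h1 s).continuousAt
  have hA' : Continuous A' := continuous_iff_continuousAt.2 fun s => (h2 s).continuousAt
  have anti : ∀ a b : ℝ, b ≤ 0 → (∀ s, a ≤ s → 0 < A s) → StrictAntiOn A' (Set.Icc a b) := by
    intro a b hb hpos
    refine strictAntiOn_of_deriv_neg (convex_Icc a b) hA'.continuousOn fun x hx => ?_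
    rw [interior_Icc] at hx
    rw [(h2 x).deriv]
    exact mul_neg_of_neg_of_pos (lt_of_lt_of_le hx.2 hb) (hpos x hx.1.le)
  refine ⟨fun s hs => ?_, ?_⟩
  · rcases lt_or_ge 0 s with h0 | h0
    · exact (airy_bounds h1 h2 h3 (fun u hu => h4 u (by linarith)) s h0).1
    · have := anti (-c) 0 le_rfl h4 ⟨le_rfl, by linarith⟩ ⟨hs.le, h0⟩ hs
      rwa [h5] at this
  · have hev : ∀ᶠ s in 𝓝 (-c), 0 < A s :=
      hA.continuousAt.eventually (lt_mem_nhds (h4 (-c) le_rfl))
    obtain ⟨ε, hε, hball⟩ := Metric.eventually_nhds_iff.1 hev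
    have hpos : ∀ s, -c - ε / 2 ≤ s → 0 < A s := by
      intro s hs
      rcases le_or_gt (-c) s with h | h
      · exact h4 s h
      · refine hball ?_
        rw [Real.dist_eq, abs_lt]
        constructor <;> linarith
    refine ⟨ε / 2, by linarith, hpos, fun s hs hs' => ?_⟩
    have := anti (-c - ε / 2) (-c) (by linarith) hpos ⟨hs, hs'.le⟩ ⟨by linarith, le_rfl⟩ hs'
    rwa [h5] at this

theorem unif_step {f : ℝ → ℝ} (hf : Continuous f) (R δ : ℝ) (hδ : 0 < δ) :
    ∃ h₀ : ℝ, 0 < h₀ ∧ h₀ ≤ 1 ∧ ∀ s u : ℝ, |s| ≤ R → |u - s| ≤ h₀ → |f u - f s| ≤ δ := by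
  have hu : UniformContinuousOn f (Set.Icc (-(R + 1)) (R + 1)) :=
    isCompact_Icc.uniformContinuousOn_of_continuous hf.continuousOn
  obtain ⟨η, hη, H⟩ := Metric.uniformContinuousOn_iff_le.1 hu δ hδ
  refine ⟨min η 1, lt_min hη one_pos, min_le_right _ _, fun s u hs h => ?_⟩
  have h1 : |u - s| ≤ 1 := h.trans (min_le_right _ _)
  have h2 : |u - s| ≤ η := h.trans (min_le_left _ _)
  rw [abs_le] at hs h1
  have := H u ⟨by linarith [hs.1, h1.1], by linarith [hs.2, h1.2]⟩ s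
    ⟨by linarith [hs.1], by linarith [hs.2]⟩ (by rwa [Real.dist_eq])
  rwa [Real.dist_eq] at this

theorem first_order {f f' : ℝ → ℝ} (hd : ∀ s, HasDerivAt f (f' s) s) (hc : Continuous f')
    (R δ : ℝ) (hδ : 0 < δ) :
    ∃ h₀ : ℝ, 0 < h₀ ∧ h₀ ≤ 1 ∧ ∀ s h : ℝ, |s| ≤ R → 0 ≤ h → h ≤ h₀ →
      |f (s - h) - f s| ≤ δ ∧ |f (s - h) - f s + h * f' s| ≤ δ * h := by
  have hf : Continuous f := continuous_iff_continuousAt.2 fun s => (hd s).continuousAt
  obtain ⟨a, ha, ha1, Ha⟩ := unif_step hf R δ hδ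
  obtain ⟨b, hb, -, Hb⟩ := unif_step hc R δ hδ
  refine ⟨min a b, lt_min ha hb, (min_le_left _ _).trans ha1, fun s h hs h0 hh => ⟨?_, ?_⟩⟩
  · refine Ha s (s - h) hs ?_
    rw [show s - h - s = -h by ring, abs_neg, abs_of_nonneg h0]
    exact hh.trans (min_le_left _ _)
  · rcases h0.eq_or_lt with rfl | hpos
    · simp
    obtain ⟨ξ, hξ, he⟩ := exists_hasDerivAt_eq_slope f f' (show s - h < s by linarith)
      hf.continuousOn (fun x _ => hd x)
    have e1 : f (s - h) - f s + h * f' s = h * (f' s - f' ξ) := by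
      rw [he, show s - (s - h) = h by ring]
      field_simp
      ring
    have e2 : |f' ξ - f' s| ≤ δ := by
      refine Hb s ξ hs ?_
      have := hh.trans (min_le_right a b)
      rw [abs_le]
      constructor <;> linarith [hξ.1, hξ.2]
    rw [e1, abs_mul, abs_of_pos hpos, abs_sub_comm, mul_comm]
    exact mul_le_mul_of_nonneg_right e2 hpos.le

/-- one step to the left: on a bounded interval the values are bounded, and the first order
expansions hold with an error `δ * h` for all small `h` -/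
theorem airy_step {A A' : ℝ → ℝ} (h1 : ∀ s, HasDerivAt A (A' s) s)
    (h2 : ∀ s, HasDerivAt A' (s * A s) s) (R : ℝ) :
    ∃ M : ℝ, 1 ≤ M ∧ R ≤ M ∧ (∀ s, |s| ≤ R + 1 → |A s| ≤ M ∧ |A' s| ≤ M) ∧
      ∀ δ : ℝ, 0 < δ → ∃ h₀ : ℝ, 0 < h₀ ∧ h₀ ≤ 1 ∧ ∀ s h : ℝ, |s| ≤ R → 0 ≤ h → h ≤ h₀ →
        |A (s - h) - A s| ≤ δ ∧ |A' (s - h) - A' s| ≤ δ ∧
        |A (s - h) - A s + h * A' s| ≤ δ * h ∧ |A' (s - h) - A' s + h * (s * A s)| ≤ δ * h := by
  have hA : Continuous A := continuous_iff_continuousAt.2 fun s => (h1 s).continuousAt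
  have hA' : Continuous A' := continuous_iff_continuousAt.2 fun s => (h2 s).continuousAt
  obtain ⟨M₁, H₁⟩ := (isCompact_Icc (a := -(R + 1)) (b := R + 1)).exists_bound_of_continuousOn
    hA.continuousOn
  obtain ⟨M₂, H₂⟩ := (isCompact_Icc (a := -(R + 1)) (b := R + 1)).exists_bound_of_continuousOn
    hA'.continuousOn
  refine ⟨max (max 1 R) (max M₁ M₂), (le_max_left _ _).trans (le_max_left _ _),
    (le_max_right _ _).trans (le_max_left _ _), fun s hs => ⟨?_, ?_⟩, fun δ hδ => ?_⟩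
  · exact (H₁ s (abs_le.1 hs)).trans ((le_max_left _ _).trans (le_max_right _ _))
  · exact (H₂ s (abs_le.1 hs)).trans ((le_max_right _ _).trans (le_max_right _ _))
  · obtain ⟨a, ha, ha1, Ha⟩ := first_order h1 hA' R δ hδ
    obtain ⟨b, hb, -, Hb⟩ := first_order (f' := fun s => s * A s) h2
      (continuous_id.mul hA) R δ hδ
    refine ⟨min a b, lt_min ha hb, (min_le_left _ _).trans ha1, fun s h hs h0 hh => ?_⟩
    have x := Ha s h hs h0 (hh.trans (min_le_left _ _))
    have y := Hb s h hs h0 (hh.trans (min_le_right _ _))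
    exact ⟨x.1, y.1, x.2, y.2⟩

end Pool.Agent.Lib.MP_f387d3_mp.AI
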