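import Mathlib
import Pool.Agent.Lib.MP_f387d3_mp.AI.Bounds

/-!
Weighted bounds for the decaying solution of the Airy equation, and its slope near the first
critical point.
-/

namespace Pool.Agent.Lib.MP_f387d3_mp.AI

open Filter Topology

/-- for `x ≥ 4` one has `A' ≤ -2 A` (`airy_bounds`), so `A x * exp (2 x)` is nonincreasing, and
`|A' x| ≤ (x + 1) * A x ≤ exp x * A x`; on `[-R - 1, 4]` use continuity -/
theorem airy_decay {A A' : ℝ → ℝ} (h1 : ∀ s, HasDerivAt A (A' s) s)
    (h2 : ∀ s, HasDerivAt A' (s * A s) s) (h3 : Tendsto A atTop (𝓝 0))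
    (h4 : ∀ s, 0 ≤ s → 0 < A s) (R : ℝ) :
    ∃ K : ℝ, 0 ≤ K ∧ ∀ x, -R ≤ x → |A x| ≤ K * Real.exp (-x) ∧ |A' x| ≤ K * Real.exp (-x) := by
  have cA : Continuous A := continuous_iff_continuousAt.2 fun s => (h1 s).continuousAt
  have cA' : Continuous A' := continuous_iff_continuousAt.2 fun s => (h2 s).continuousAt
  have cF : Continuous fun x => (|A x| + |A' x|) * Real.exp x :=
    (cA.abs.add cA'.abs).mul Real.continuous_exp
  obtain ⟨C, hC⟩ := (isCompact_Icc (a := -R) (b := 4)).exists_bound_of_continuousOn cF.continuousOn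
  have hslope : ∀ x, 4 ≤ x → A' x + 2 * A x ≤ 0 := by
    intro x hx
    obtain ⟨b1, b2, -⟩ := airy_bounds h1 h2 h3 h4 x (by linarith)
    have hA := h4 x (by linarith)
    have h5 : (2 * A x) ^ 2 ≤ (-A' x) ^ 2 := by nlinarith [sq_nonneg (A x)]
    have h6 : 2 * A x ≤ -A' x := (abs_le_of_sq_le_sq' h5 (by linarith)).2
    linarith
  have hd : ∀ s, HasDerivAt (fun s => -(A s * Real.exp (2 * s)))
      (-(A' s * Real.exp (2 * s) + A s * (Real.exp (2 * s) * 2))) s := by
    intro s
    have e1 : HasDerivAt (fun s : ℝ => 2 * s) 2 s := by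
      simpa using (hasDerivAt_id s).const_mul (2 : ℝ)
    exact ((h1 s).mul e1.exp).neg
  have hM : ∀ x, 4 ≤ x → A x * Real.exp (2 * x) ≤ A 4 * Real.exp (2 * 4) := by
    intro x hx
    have h7 := ab_mono 4 hd (fun u hu => by
      have := hslope u hu
      have e := Real.exp_pos (2 * u)
      nlinarith) le_rfl hx
    linarith
  have hM0 : 0 ≤ A 4 * Real.exp (2 * 4) := mul_nonneg (h4 4 (by norm_num)).le (Real.exp_pos _).le
  refine ⟨|C| + A 4 * Real.exp (2 * 4), by positivity, fun x hx => ?_⟩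
  have ex := Real.exp_pos x
  have enx := Real.exp_pos (-x)
  have ee : Real.exp x * Real.exp (-x) = 1 := by rw [← Real.exp_add]; simp
  have key : ∀ y : ℝ, y * Real.exp x ≤ |C| + A 4 * Real.exp (2 * 4) →
      y ≤ (|C| + A 4 * Real.exp (2 * 4)) * Real.exp (-x) := by
    intro y hy
    calc y = y * Real.exp x * Real.exp (-x) := by rw [mul_assoc, ee, mul_one]
      _ ≤ _ := mul_le_mul_of_nonneg_right hy enx.le
  rcases le_total x 4 with hx4 | hx4
  · have h8 := hC x ⟨hx, hx4⟩
    rw [Real.norm_eq_abs] at h8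
    have h9 : (|A x| + |A' x|) * Real.exp x ≤ |C| :=
      le_trans (le_abs_self _) (le_trans h8 (le_abs_self C))
    have a1 : 0 ≤ |A x| * Real.exp x := by positivity
    have a2 : 0 ≤ |A' x| * Real.exp x := by positivity
    exact ⟨key _ (by nlinarith), key _ (by nlinarith)⟩
  · have hA := h4 x (by linarith)
    have h8 := hM x hx4
    have e2 : Real.exp (2 * x) = Real.exp x * Real.exp x := by rw [← Real.exp_add]; ring_nf
    have e3 : x + 1 ≤ Real.exp x := Real.add_one_le_exp x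
    obtain ⟨b1, -, b3⟩ := airy_bounds h1 h2 h3 h4 x (by linarith)
    have s1 : 1 ≤ Real.sqrt x := Real.one_le_sqrt.2 (by linarith)
    have s2 : 1 / (2 * Real.sqrt x) ≤ 1 := by
      rw [div_le_one (by linarith)]
      linarith
    have h10 : (-A' x) ^ 2 ≤ (Real.exp x * A x) ^ 2 := by
      have t1 : x + 1 / (2 * Real.sqrt x) ≤ Real.exp x ^ 2 := by nlinarith
      have t2 := mul_le_mul_of_nonneg_right t1 (sq_nonneg (A x))
      calc (-A' x) ^ 2 = A' x ^ 2 := by ring
        _ ≤ Real.exp x ^ 2 * A x ^ 2 := le_trans b3 t2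
        _ = (Real.exp x * A x) ^ 2 := by ring
    have h11 : -A' x ≤ Real.exp x * A x := (abs_le_of_sq_le_sq' h10 (by positivity)).2
    have hC0 := abs_nonneg C
    rw [e2] at h8
    have h12 : A x * Real.exp x ≤ A x * (Real.exp x * Real.exp x) := by
      have : Real.exp x ≤ Real.exp x * Real.exp x := by nlinarith
      exact mul_le_mul_of_nonneg_left this hA.le
    refine ⟨key _ ?_, key _ ?_⟩
    · rw [abs_of_pos hA]
      linarith
    · rw [abs_of_neg b1]
      have h13 := mul_le_mul_of_nonneg_right h11 ex.le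
      nlinarith

theorem step_mv {f f' : ℝ → ℝ} (hf : ∀ x, HasDerivAt f (f' x) x) {s t C : ℝ} (ht : 0 ≤ t)
    (hC : ∀ x, s - t ≤ x → x ≤ s → |f' x| ≤ C) : |f (s - t) - f s| ≤ t * C := by
  have h := (convex_Icc (s - t) s).norm_image_sub_le_of_norm_hasDerivWithin_le (f := f) (f' := f')
    (C := C) (fun x _ => (hf x).hasDerivWithinAt) (fun x hx => hC x hx.1 hx.2)
    (x := s) (y := s - t) ⟨by linarith, le_rfl⟩ ⟨le_rfl, by linarith⟩
  rw [Real.norm_eq_abs, Real.norm_eq_abs, show s - t - s = -t by ring, abs_neg,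
    abs_of_nonneg ht] at h
  linarith [mul_comm C t]

/-- take `N = K₂ * exp (1 - s)` with `K₂` from `airy_decay` for `R + 1`; it bounds `|A|` and `|A'|`
on `[s - 1, s]`; mean value inequalities; `(|s| + 1) ^ 2 ≤ 16 * exp (|s| / 2)` and
`|s| / 2 ≤ s / 2 + R` -/
theorem airy_step_two {A A' : ℝ → ℝ} (h1 : ∀ s, HasDerivAt A (A' s) s)
    (h2 : ∀ s, HasDerivAt A' (s * A s) s) (h3 : Tendsto A atTop (𝓝 0))
    (h4 : ∀ s, 0 ≤ s → 0 < A s) {R : ℝ} (hR : 0 ≤ R) :
    ∃ K : ℝ, 0 ≤ K ∧ ∀ s h : ℝ, -R ≤ s → 0 ≤ h → h ≤ 1 → ∃ N : ℝ,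
      (|s| + 1) ^ 2 * N ≤ K * Real.exp (-s / 2) ∧ |A s| ≤ N ∧ |A' s| ≤ N ∧ |A (s - h)| ≤ N ∧
      |A' (s - h)| ≤ N ∧ |A (s - h) - A s| ≤ h * N ∧ |A' (s - h) - A' s| ≤ h * ((|s| + 1) * N) ∧
      |A (s - h) - A s + h * A' s| ≤ h ^ 2 * ((|s| + 1) * N) ∧
      |A' (s - h) - A' s + h * (s * A s)| ≤ 2 * h ^ 2 * ((|s| + 1) * N) := by
  obtain ⟨K, hK, hb⟩ := airy_decay h1 h2 h3 h4 (R + 1)
  refine ⟨16 * K * Real.exp (R + 1), by positivity, fun s h hs h0 hh => ?_⟩
  obtain ⟨N, hN⟩ : ∃ N, N = K * Real.exp (1 - s) := ⟨_, rfl⟩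
  have N0 : 0 ≤ N := by rw [hN]; positivity
  have s0 : 0 ≤ |s| := abs_nonneg s
  have hx : ∀ x, s - h ≤ x → x ≤ s → |A x| ≤ N ∧ |A' x| ≤ N := fun x a b => by
    have e : K * Real.exp (-x) ≤ N := by
      rw [hN]
      exact mul_le_mul_of_nonneg_left (Real.exp_le_exp.2 (by linarith)) hK
    have := hb x (by linarith)
    exact ⟨this.1.trans e, this.2.trans e⟩
  have habs : ∀ x, s - h ≤ x → x ≤ s → |x| ≤ |s| + 1 := fun x a b => by
    have := le_abs_self s
    have := neg_abs_le s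
    rw [abs_le]; constructor <;> linarith
  have d1 : ∀ x, s - h ≤ x → x ≤ s → |A x - A s| ≤ h * N := fun x a b => by
    have := step_mv h1 (s := s) (t := s - x) (C := N) (by linarith)
      fun y c d => (hx y (by linarith) d).2
    rw [show s - (s - x) = x by ring] at this
    exact this.trans (mul_le_mul_of_nonneg_right (by linarith) N0)
  have d2 : ∀ x, s - h ≤ x → x ≤ s → |A' x - A' s| ≤ h * ((|s| + 1) * N) := fun x a b => by
    have := step_mv h2 (s := s) (t := s - x) (C := (|s| + 1) * N) (by linarith)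
      fun y c d => by
        rw [abs_mul]
        exact mul_le_mul (habs y (by linarith) d) (hx y (by linarith) d).1 (abs_nonneg _)
          (by linarith)
    rw [show s - (s - x) = x by ring] at this
    exact this.trans (mul_le_mul_of_nonneg_right (by linarith) (by positivity))
  have a0 : s - h ≤ s := by linarith
  refine ⟨N, ?_, (hx s a0 le_rfl).1, (hx s a0 le_rfl).2, (hx _ le_rfl a0).1, (hx _ le_rfl a0).2,
    d1 _ le_rfl a0, d2 _ le_rfl a0, ?_, ?_⟩
  · have e1 : |s| / 4 + 1 ≤ Real.exp (|s| / 4) := Real.add_one_le_exp _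
    have e2 : (|s| + 1) ^ 2 ≤ 16 * Real.exp (|s| / 2) := by
      have e3 : Real.exp (|s| / 2) = Real.exp (|s| / 4) ^ 2 := by
        rw [sq, ← Real.exp_add]; congr 1; ring
      rw [e3]
      nlinarith
    have e4 : |s| / 2 ≤ s / 2 + R := by
      have : |s| ≤ s + 2 * R := by rw [abs_le]; constructor <;> linarith
      linarith
    have e5 : Real.exp (|s| / 2) * Real.exp (1 - s) ≤ Real.exp (R + 1) * Real.exp (-s / 2) := by
      rw [← Real.exp_add, ← Real.exp_add, Real.exp_le_exp]; linarith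
    calc (|s| + 1) ^ 2 * N ≤ 16 * Real.exp (|s| / 2) * N := mul_le_mul_of_nonneg_right e2 N0
      _ = 16 * K * (Real.exp (|s| / 2) * Real.exp (1 - s)) := by rw [hN]; ring
      _ ≤ 16 * K * (Real.exp (R + 1) * Real.exp (-s / 2)) :=
        mul_le_mul_of_nonneg_left e5 (by positivity)
      _ = _ := by ring
  · have := step_mv (f := fun x => A x - x * A' s) (f' := fun x => A' x - 1 * A' s)
      (fun x => (h1 x).sub ((hasDerivAt_id' x).mul_const _)) (s := s) (t := h)
      (C := h * ((|s| + 1) * N)) h0 fun y c d => by rw [one_mul]; exact d2 y c d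
    rw [show A (s - h) - (s - h) * A' s - (A s - s * A' s) = A (s - h) - A s + h * A' s by ring]
      at this
    exact this.trans (le_of_eq (by ring))
  · have := step_mv (f := fun x => A' x - x * (s * A s)) (f' := fun x => x * A x - 1 * (s * A s))
      (fun x => (h2 x).sub ((hasDerivAt_id' x).mul_const _)) (s := s) (t := h)
      (C := h * ((|s| + 1) * N)) h0 fun y c d => by
        rw [show y * A y - 1 * (s * A s) = (y - s) * A y + s * (A y - A s) by ring]
        refine (abs_add_le _ _).trans ?_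
        rw [abs_mul, abs_mul]
        have b1 : |y - s| ≤ h := by rw [abs_le]; constructor <;> linarith
        have b2 := mul_le_mul b1 (hx y c d).1 (abs_nonneg _) h0
        have b3 := mul_le_mul_of_nonneg_left (d1 y c d) s0
        linarith
    rw [show A' (s - h) - (s - h) * (s * A s) - (A' s - s * (s * A s)) =
      A' (s - h) - A' s + h * (s * A s) by ring] at this
    have b : 0 ≤ h ^ 2 * ((|s| + 1) * N) := by positivity
    nlinarith

/-- with `m` the minimum of `A` on `[-c - δ, -c / 4]` and `a = c / 4 * m`, the function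
`A' s + a * s` is nonincreasing on that interval -/
theorem airy_slope {A A' : ℝ → ℝ} {c δ : ℝ} (h1 : ∀ s, HasDerivAt A (A' s) s)
    (h2 : ∀ s, HasDerivAt A' (s * A s) s) (hc : 0 < c) (hδ : 0 < δ)
    (h4 : ∀ s, -c - δ ≤ s → 0 < A s) (h5 : A' (-c) = 0) :
    ∃ a : ℝ, 0 < a ∧ (∀ s, -c ≤ s → s ≤ -c / 4 → a * (s + c) ≤ -A' s) ∧
      ∀ s, -c - δ ≤ s → s ≤ -c → a * (-c - s) ≤ A' s := by
  have cA : Continuous A := continuous_iff_continuousAt.2 fun s => (h1 s).continuousAt
  have hne : (Set.Icc (-c - δ) (-c / 4)).Nonempty := ⟨-c, by constructor <;> linarith⟩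
  obtain ⟨x0, hx0, hmin⟩ := (isCompact_Icc (a := -c - δ) (b := -c / 4)).exists_isMinOn hne
    cA.continuousOn
  have hm : 0 < A x0 := h4 x0 hx0.1
  have hd : ∀ s, HasDerivAt (fun s => A' s + c / 4 * A x0 * s) (s * A s + c / 4 * A x0) s := by
    intro s
    have e1 : HasDerivAt (fun s : ℝ => c / 4 * A x0 * s) (c / 4 * A x0) s := by
      simpa using (hasDerivAt_id s).const_mul (c / 4 * A x0)
    exact (h2 s).add e1
  have hanti : AntitoneOn (fun s => A' s + c / 4 * A x0 * s) (Set.Icc (-c - δ) (-c / 4)) := by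
    refine antitoneOn_of_deriv_nonpos (convex_Icc _ _)
      (fun s _ => (hd s).continuousAt.continuousWithinAt)
      (fun s _ => (hd s).differentiableAt.differentiableWithinAt) ?_
    intro s hs
    have hs' := interior_subset hs
    rw [(hd s).deriv]
    have k1 : A x0 ≤ A s := hmin hs'
    have k2 : s ≤ -c / 4 := hs'.2
    nlinarith
  have hcm : -c ∈ Set.Icc (-c - δ) (-c / 4) := by constructor <;> linarith
  refine ⟨c / 4 * A x0, by positivity, fun s hs1 hs2 => ?_, fun s hs1 hs2 => ?_⟩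
  · have k := hanti hcm (show s ∈ Set.Icc (-c - δ) (-c / 4) from ⟨by linarith, hs2⟩) hs1
    simp only [h5] at k
    linarith
  · have k := hanti (show s ∈ Set.Icc (-c - δ) (-c / 4) from ⟨hs1, by linarith⟩) hcm hs2
    simp only [h5] at k
    linarith

end Pool.Agent.Lib.MP_f387d3_mp.AI
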