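import Mathlib

/-!
Existence of the decaying solution of the Airy equation and of its first critical point.
-/

namespace Pool.Agent.Lib.MP_f387d3_mp.AI

open Filter Topology

/-- the integrand of the Airy integral along the line `u + i`, times `(i (u + i)) ^ k` -/
noncomputable def dcF (k : ℕ) (s u : ℝ) : ℂ :=
  (Complex.I * (u + Complex.I)) ^ k *
    Complex.exp (Complex.I * ((u + Complex.I) ^ 3 / 3 + s * (u + Complex.I)))

theorem dcF_cont (k : ℕ) (s : ℝ) : Continuous (dcF k s) := by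
  unfold dcF; fun_prop

theorem dcF_norm (k : ℕ) (s u : ℝ) :
    ‖dcF k s u‖ ≤ Real.exp (1 / 3 + (k : ℝ) ^ 2 / 2 - s) * Real.exp (-(1 / 2) * u ^ 2) := by
  have h1 : (Complex.I * (((u : ℂ) + Complex.I) ^ 3 / 3 + s * (u + Complex.I))).re =
      1 / 3 - u ^ 2 - s := by
    have : Complex.I * (((u : ℂ) + Complex.I) ^ 3 / 3 + s * (u + Complex.I)) =
        ((1 / 3 - u ^ 2 - s : ℝ) : ℂ) + ((u ^ 3 / 3 - u + s * u : ℝ) : ℂ) * Complex.I := by
      push_cast
      linear_combination (u ^ 2 + s + u * Complex.I + (Complex.I ^ 2 - 1) / 3 : ℂ) * Complex.I_sq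
    rw [this]
    simp only [Complex.add_re, Complex.ofReal_re, Complex.mul_re, Complex.I_re, Complex.I_im,
      Complex.ofReal_im]
    ring
  have h2 : ‖Complex.I * ((u : ℂ) + Complex.I)‖ ≤ Real.exp |u| := by
    rw [norm_mul, Complex.norm_I, one_mul]
    refine (norm_add_le _ _).trans ?_
    rw [Complex.norm_I, Complex.norm_real, Real.norm_eq_abs]
    exact Real.add_one_le_exp _
  unfold dcF
  rw [norm_mul, norm_pow, Complex.norm_exp, h1]
  calc ‖Complex.I * ((u : ℂ) + Complex.I)‖ ^ k * Real.exp (1 / 3 - u ^ 2 - s)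
      ≤ Real.exp |u| ^ k * Real.exp (1 / 3 - u ^ 2 - s) := by gcongr
    _ ≤ _ := by
      rw [← Real.exp_nat_mul, ← Real.exp_add, ← Real.exp_add, Real.exp_le_exp]
      nlinarith [sq_nonneg ((k : ℝ) - |u|), sq_abs u]

theorem dc_gauss : MeasureTheory.Integrable fun u : ℝ => Real.exp (-(1 / 2) * u ^ 2) :=
  integrable_exp_neg_mul_sq (by norm_num)

theorem dcF_int (k : ℕ) (s : ℝ) : MeasureTheory.Integrable (dcF k s) :=
  (dc_gauss.const_mul _).mono' (dcF_cont k s).aestronglyMeasurable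
    (Eventually.of_forall fun u => dcF_norm k s u)

theorem dcF_ds (k : ℕ) (s u : ℝ) : HasDerivAt (fun x => dcF k x u) (dcF (k + 1) s u) s := by
  have h1 : HasDerivAt (fun x : ℝ => (x : ℂ)) 1 s := Complex.ofRealCLM.hasDerivAt
  have h2 := (((((h1.mul_const ((u : ℂ) + Complex.I)).const_add
    (((u : ℂ) + Complex.I) ^ 3 / 3)).const_mul Complex.I).cexp).const_mul
      ((Complex.I * ((u : ℂ) + Complex.I)) ^ k))
  refine h2.congr_deriv ?_
  unfold dcF
  ring

theorem dcF_du (s u : ℝ) :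
    HasDerivAt (dcF 0 s) (Complex.I * (s * dcF 0 s u - dcF 2 s u)) u := by
  have h1 : HasDerivAt (fun x : ℝ => (x : ℂ) + Complex.I) 1 u :=
    Complex.ofRealCLM.hasDerivAt.add_const _
  have h2 := ((((h1.fun_pow 3).div_const 3).fun_add (h1.const_mul (s : ℂ))).const_mul
    Complex.I).cexp
  have h3 : dcF 0 s = fun x : ℝ => Complex.exp (Complex.I *
      (((x : ℂ) + Complex.I) ^ 3 / 3 + s * (x + Complex.I))) := by
    funext x; simp [dcF]
  rw [h3]
  refine h2.congr_deriv ?_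
  unfold dcF
  simp only [mul_pow, Complex.I_sq]
  push_cast
  ring

theorem dcI_deriv (k : ℕ) (s : ℝ) :
    HasDerivAt (fun x => ∫ u, dcF k x u) (∫ u, dcF (k + 1) s u) s := by
  refine (hasDerivAt_integral_of_dominated_loc_of_deriv_le (F := fun x u => dcF k x u)
    (F' := fun x u => dcF (k + 1) x u) (s := Set.Ioi (s - 1))
    (bound := fun u => Real.exp (1 / 3 + ((k + 1 : ℕ) : ℝ) ^ 2 / 2 - (s - 1)) *
      Real.exp (-(1 / 2) * u ^ 2))
    (Ioi_mem_nhds (by linarith))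
    (Eventually.of_forall fun x => (dcF_cont k x).aestronglyMeasurable) (dcF_int k s)
    (dcF_cont (k + 1) s).aestronglyMeasurable
    (Eventually.of_forall fun u x hx => (dcF_norm (k + 1) x u).trans ?_)
    (dc_gauss.const_mul _) (Eventually.of_forall fun u x _ => dcF_ds k x u)).2
  have hx' : s - 1 < x := hx
  gcongr

theorem dcI_ode (s : ℝ) : ∫ u, dcF 2 s u = s * ∫ u, dcF 0 s u := by
  have hi : MeasureTheory.Integrable fun u => (s : ℂ) * dcF 0 s u - dcF 2 s u :=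
    ((dcF_int 0 s).const_mul _).sub (dcF_int 2 s)
  have h := MeasureTheory.integral_eq_zero_of_hasDerivAt_of_integrable (dcF_du s)
    (hi.const_mul _) (dcF_int 0 s)
  rw [MeasureTheory.integral_const_mul, mul_eq_zero,
    MeasureTheory.integral_sub ((dcF_int 0 s).const_mul _) (dcF_int 2 s),
    MeasureTheory.integral_const_mul] at h
  exact (sub_eq_zero.1 (h.resolve_left Complex.I_ne_zero)).symm

theorem dcI_tendsto : Tendsto (fun s => ∫ u, dcF 0 s u) atTop (𝓝 0) := by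
  have h1 : Tendsto (fun s : ℝ => Real.exp (1 / 3 + ((0 : ℕ) : ℝ) ^ 2 / 2 - s) *
      ∫ u : ℝ, Real.exp (-(1 / 2) * u ^ 2)) atTop (𝓝 0) := by
    have h2 : Tendsto (fun s : ℝ => 1 / 3 + ((0 : ℕ) : ℝ) ^ 2 / 2 - s) atTop atBot :=
      tendsto_atBot_add_const_left _ _ tendsto_neg_atTop_atBot
    have h3 := (Real.tendsto_exp_atBot.comp h2).mul_const (∫ u : ℝ, Real.exp (-(1 / 2) * u ^ 2))
    rw [zero_mul] at h3
    exact h3
  refine squeeze_zero_norm (fun s => ?_) h1
  rw [← MeasureTheory.integral_const_mul]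
  exact MeasureTheory.norm_integral_le_of_norm_le (dc_gauss.const_mul _)
    (Eventually.of_forall fun u => dcF_norm 0 s u)

theorem dcI_ne : ∃ s, ∫ u, dcF 0 s u ≠ 0 := by
  by_contra hcon
  push Not at hcon
  have h1 : FourierTransform.fourier (dcF 0 0) = fun _ : ℝ => (0 : ℂ) := by
    funext w
    rw [Real.fourier_real_eq_integral_exp_smul]
    have h2 : ∀ v : ℝ, Complex.exp (((-2 * Real.pi * v * w : ℝ) : ℂ) * Complex.I) • dcF 0 0 v =
        Complex.exp ((-2 * Real.pi * w : ℝ) : ℂ) * dcF 0 (-2 * Real.pi * w) v := by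
      intro v
      simp only [dcF, pow_zero, one_mul, smul_eq_mul, ← Complex.exp_add]
      congr 1
      push_cast
      linear_combination (2 * Real.pi * w : ℂ) * Complex.I_sq
    simp_rw [h2]
    rw [MeasureTheory.integral_const_mul, hcon, mul_zero]
  have h3 := (dcF_cont 0 0).fourierInv_fourier_eq (dcF_int 0 0)
    (by rw [h1]; exact MeasureTheory.integrable_zero _ _ _)
  have h4 := congrFun h3 0
  rw [h1, Real.fourierInv_eq'] at h4
  simp [dcF] at h4
  exact Complex.exp_ne_zero _ h4.symm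

theorem dc_part (L : ℂ →L[ℝ] ℝ) (h : ∃ s, L (∫ u, dcF 0 s u) ≠ 0) :
    ∃ A A' : ℝ → ℝ, (∀ s, HasDerivAt A (A' s) s) ∧
      (∀ s, HasDerivAt A' (s * A s) s) ∧ Tendsto A atTop (𝓝 0) ∧ ∃ s, A s ≠ 0 := by
  refine ⟨fun s => L (∫ u, dcF 0 s u), fun s => L (∫ u, dcF 1 s u),
    fun s => L.hasFDerivAt.comp_hasDerivAt s (dcI_deriv 0 s), fun s => ?_, ?_, h⟩
  · have h1 := L.hasFDerivAt.comp_hasDerivAt s (dcI_deriv 1 s)
    rw [show (1 + 1 : ℕ) = 2 from rfl, dcI_ode, ← Complex.real_smul, map_smul, smul_eq_mul] at h1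
    exact h1
  · have h1 := (L.continuous.tendsto 0).comp dcI_tendsto
    rw [map_zero] at h1
    exact h1

/-- Take `I s = ∫ u : ℝ, exp (i ((u + i) ^ 3 / 3 + s (u + i)))`; the integrand has norm
`exp (1 / 3 - u ^ 2 - s)`. Differentiate twice under the integral
(`hasDerivAt_integral_of_dominated_loc_of_deriv_le`); the second derivative minus `s * I s` is
`i` times the integral of the `u`-derivative of the integrand, which is zero
(`integral_eq_zero_of_hasDerivAt_of_integrable`). `‖I s‖ ≤ C * exp (-s)`. `I` is not zero: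
`exp s * I s` is the Fourier transform at `-s / (2 π)` of a continuous integrable function that
does not vanish (Fourier inversion). Take the real or the imaginary part. -/
theorem exists_decay : ∃ A A' : ℝ → ℝ, (∀ s, HasDerivAt A (A' s) s) ∧
    (∀ s, HasDerivAt A' (s * A s) s) ∧ Tendsto A atTop (𝓝 0) ∧ ∃ s, A s ≠ 0 := by
  obtain ⟨s, hs⟩ := dcI_ne
  by_cases h : (∫ u, dcF 0 s u).re = 0
  · exact dc_part Complex.imCLM ⟨s, fun h2 => hs (Complex.ext h h2)⟩
  · exact dc_part Complex.reCLM ⟨s, h⟩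

lemma le_of_der {f f' : ℝ → ℝ} {a b : ℝ} (hab : a ≤ b) (h : ∀ x, HasDerivAt f (f' x) x)
    (h0 : ∀ x, a ≤ x → x ≤ b → 0 ≤ f' x) : f a ≤ f b :=
  monotoneOn_of_deriv_nonneg (convex_Icc a b) (fun x _ => (h x).continuousAt.continuousWithinAt)
    (fun x _ => (h x).differentiableAt.differentiableWithinAt)
    (fun x hx => by rw [(h x).deriv]; exact h0 x (interior_subset hx).1 (interior_subset hx).2)
    (Set.left_mem_Icc.2 hab) (Set.right_mem_Icc.2 hab) hab

/-- `A ^ 2` is convex on `[0, ∞)` and tends to zero, so it is nonincreasing there; if `A s = 0`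
then `A` vanishes on `[s, ∞)`, so `A' (s + 1) = 0`, and `(A ^ 2 + A' ^ 2) * exp (L x)` is monotone
on `[s₁, s + 1]` for `L = 1 + max |x|`, so `A s₁ = 0` for all `s₁` -/
theorem ne_zero_of_decay {A A' : ℝ → ℝ} (h1 : ∀ s, HasDerivAt A (A' s) s)
    (h2 : ∀ s, HasDerivAt A' (s * A s) s) (h3 : Tendsto A atTop (𝓝 0)) (h4 : ∃ s, A s ≠ 0)
    (s : ℝ) (hs : 0 ≤ s) : A s ≠ 0 := by
  intro h0
  obtain ⟨s₁, h4⟩ := h4
  have p : ∀ t, s ≤ t → 0 ≤ A t * A' t := fun t ht => by
    have := le_of_der ht (fun x => (h1 x).fun_mul (h2 x)) fun x hx _ => by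
      nlinarith [mul_nonneg (hs.trans hx) (mul_self_nonneg (A x)), mul_self_nonneg (A' x)]
    rwa [h0, zero_mul] at this
  have z : ∀ t, s ≤ t → A t = 0 := fun t ht => by
    have : A t * A t ≤ 0 * 0 := ge_of_tendsto (h3.mul h3) ((eventually_ge_atTop t).mono
      fun u hu => le_of_der hu (fun x => (h1 x).fun_mul (h1 x)) fun x hx _ => by
        linarith [p x (ht.trans hx)])
    exact mul_self_eq_zero.1 (le_antisymm (by linarith) (mul_self_nonneg _))
  have z' : A' (s + 1) = 0 := (h1 _).unique ((hasDerivAt_const (s + 1) (0 : ℝ)).congr_of_eventuallyEq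
    ((lt_mem_nhds (lt_add_one s)).mono fun t ht => z t ht.le))
  rcases le_total s s₁ with c | c
  · exact h4 (z _ c)
  have e := le_of_der (show s₁ ≤ s + 1 by linarith)
    (fun x => (((h1 x).fun_mul (h1 x)).fun_add ((h2 x).fun_mul (h2 x))).fun_mul
      ((hasDerivAt_id' x).const_mul (2 + s + |s₁|)).exp) fun x a b => by
    have k1 : 0 ≤ 2 + s + |s₁| + (1 + x) := by linarith [neg_abs_le s₁]
    have k2 : 0 ≤ 2 + s + |s₁| - (1 + x) := by linarith [abs_nonneg s₁]
    have k3 := add_nonneg (mul_nonneg k1 (sq_nonneg (A x + A' x)))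
      (mul_nonneg k2 (sq_nonneg (A x - A' x)))
    have k4 := mul_nonneg k3 (Real.exp_pos ((2 + s + |s₁|) * x)).le
    linarith
  rw [z (s + 1) (by linarith), z'] at e
  have := mul_pos (add_pos_of_pos_of_nonneg (mul_self_pos.2 h4) (mul_self_nonneg (A' s₁)))
    (Real.exp_pos ((2 + s + |s₁|) * s₁))
  linarith

lemma airy_of_pos {A A' : ℝ → ℝ} (h1 : ∀ s, HasDerivAt A (A' s) s)
    (h2 : ∀ s, HasDerivAt A' (s * A s) s) (h3 : Tendsto A atTop (𝓝 0)) (h4 : 0 < A 0) :
    ∃ c : ℝ, 0 < c ∧ (∀ s, -c ≤ s → 0 < A s) ∧ A' (-c) = 0 := by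
  have c1 := continuous_iff_continuousAt.2 fun x => (h1 x).continuousAt
  have c2 := continuous_iff_continuousAt.2 fun x => (h2 x).continuousAt
  have p : ∀ s, 0 ≤ s → 0 < A s := fun s hs => by
    by_contra h
    obtain ⟨t, ht, e⟩ := intermediate_value_Icc' hs c1.continuousOn ⟨not_lt.1 h, h4.le⟩
    exact ne_zero_of_decay h1 h2 h3 ⟨0, h4.ne'⟩ t ht.1 e
  have n : ∀ s, 0 ≤ s → A' s < 0 := fun s hs => by
    by_contra h
    have : A s ≤ 0 := ge_of_tendsto h3 ((eventually_ge_atTop s).mono fun u hu =>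
      le_of_der hu h1 fun x hx _ => (not_lt.1 h).trans (le_of_der hx h2 fun y hy _ =>
        mul_nonneg (hs.trans hy) (p y (hs.trans hy)).le))
    linarith [p s hs]
  obtain ⟨a, a0, ha⟩ : ∃ a, a ≤ 0 ∧ 0 ≤ A' a := by
    by_contra h
    push Not at h
    have b : ∀ x, x ≤ 0 → A 0 ≤ A x := fun x hx => neg_le_neg_iff.1
      (le_of_der (f := fun y => -A y) hx (fun y => (h1 y).fun_neg) fun y _ hy =>
        neg_nonneg.2 (h y hy).le)
    obtain ⟨u, u0, hu⟩ : ∃ u, 0 ≤ u ∧ A 0 * u = -A' 0 :=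
      ⟨-A' 0 / A 0, div_nonneg (neg_nonneg.2 (n 0 le_rfl).le) h4.le, mul_div_cancel₀ _ h4.ne'⟩
    have := le_of_der (show -(u + 2) ≤ 0 by linarith)
      (fun y => (((hasDerivAt_id' y).fun_mul (hasDerivAt_id' y)).const_mul (A 0 / 2)).fun_sub (h2 y))
      fun y _ hy => by nlinarith [mul_nonneg (neg_nonneg.2 hy) (sub_nonneg.2 (b y hy))]
    have := h (-(u + 2)) (by linarith)
    nlinarith [mul_nonneg (mul_nonneg h4.le u0) u0, mul_nonneg h4.le u0]
  obtain ⟨z, ⟨⟨-, z0⟩, z1⟩, hz⟩ := (isCompact_Icc.inter_right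
    (isClosed_le continuous_const c2 : IsClosed {x | 0 ≤ A' x})).exists_isGreatest
      ⟨a, ⟨le_rfl, a0⟩, ha⟩
  have az : a ≤ z := hz ⟨⟨le_rfl, a0⟩, ha⟩
  have z2 : z < 0 := lt_of_le_of_ne z0 fun e => (n 0 le_rfl).not_ge (e ▸ z1)
  have m : ∀ x, z < x → A' x ≤ 0 := fun x hx => by
    by_contra h
    rcases le_total x 0 with c | c
    · exact hx.not_ge (hz ⟨⟨az.trans hx.le, c⟩, (not_le.1 h).le⟩)
    · exact h (n x c).le
  have z3 : A' z ≤ 0 := le_of_tendsto (c2.continuousAt.tendsto.mono_left nhdsWithin_le_nhds)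
    (mem_of_superset (self_mem_nhdsWithin (s := Set.Ioi z)) m)
  refine ⟨-z, neg_pos.2 z2, fun s hs => ?_, by rw [neg_neg]; exact le_antisymm z3 z1⟩
  rw [neg_neg] at hs
  rcases le_total s 0 with c | c
  · exact h4.trans_le (neg_le_neg_iff.1 (le_of_der (f := fun y => -A y) c
      (fun y => (h1 y).fun_neg) fun y hy _ => neg_nonneg.2
      ((hs.trans hy).eq_or_lt.elim (fun e => e ▸ z3) (m y))))
  · exact p s c

/-- change the sign so that `A > 0` on `[0, ∞)`; there `A' < 0` (if `A' s ≥ 0` then `A` is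
nondecreasing after `s`). If `A' < 0` everywhere then `A ≥ A 0` on the negative axis and
`A' s ≥ A' 0 + A 0 * s ^ 2 / 2`, a contradiction. Let `-c` be the largest zero of `A'`. -/
theorem exists_airy : ∃ (A A' : ℝ → ℝ) (c : ℝ), (∀ s, HasDerivAt A (A' s) s) ∧
    (∀ s, HasDerivAt A' (s * A s) s) ∧ Tendsto A atTop (𝓝 0) ∧ 0 < c ∧
    (∀ s, -c ≤ s → 0 < A s) ∧ A' (-c) = 0 := by
  obtain ⟨A, A', h1, h2, h3, h4⟩ := exists_decay
  rcases lt_or_gt_of_ne (ne_zero_of_decay h1 h2 h3 h4 0 le_rfl) with h | h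
  · have k1 := fun s => (h1 s).fun_neg
    have k2 : ∀ s, HasDerivAt (fun s => -A' s) (s * -A s) s := fun s =>
      (h2 s).fun_neg.congr_deriv (by ring)
    have k3 : Tendsto (fun s => -A s) atTop (𝓝 0) := by simpa using h3.neg
    obtain ⟨c, hc⟩ := airy_of_pos k1 k2 k3 (neg_pos.2 h)
    exact ⟨_, _, c, k1, k2, k3, hc⟩
  · obtain ⟨c, hc⟩ := airy_of_pos h1 h2 h3 h
    exact ⟨A, A', c, h1, h2, h3, hc⟩

end Pool.Agent.Lib.MP_f387d3_mp.AI
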