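import Mathlib
import Pool.Agent.Lib.MP_f387d3_mp.Cube

/-!
The equal-time first order system for the two components of the amplitude, its quadratic form
and the envelope of the probability.
-/

namespace Pool.Agent.Lib.MP_f387d3_mp.AI

open Pool.Agent.Lib.MP_f387d3_mp

theorem F_symm (a b : ℕ) : F a b = F b a := by
  induction a generalizing b with
  | zero => rw [F_zero_left, F_zero_right]
  | succ a iha =>
    induction b with
    | zero => rw [F_zero_left, F_zero_right]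
    | succ b ihb => rw [F_succ_succ, F_succ_succ, ihb, iha, iha]; ring

theorem G_symm (a b : ℤ) : G a b = G b a := by
  unfold G
  rw [F_symm]
  simp only [and_comm]

/-- first component, with alternating sign -/
noncomputable def gg (n b : ℕ) : ℝ := -(-1) ^ b * (G ((n : ℤ) - b) ((b : ℤ) - 1) : ℝ)

/-- second component times `b`, with alternating sign -/
noncomputable def vv (n b : ℕ) : ℝ :=
  -(-1) ^ b * b * ((G ((n : ℤ) - b) b : ℝ) - G ((n : ℤ) - b) ((b : ℤ) - 1))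

/-- the momentum -/
noncomputable def rr (n b : ℕ) : ℝ := -(vv n b + ((n : ℝ) - 2 * b) * gg n b / 2)

/-- the discriminant -/
noncomputable def yy (n b : ℕ) : ℝ := (n : ℝ) ^ 2 - 2 * ((n : ℝ) - 2 * b) ^ 2

/-- the quadratic form -/
noncomputable def QQ (n b : ℕ) : ℝ := rr n b ^ 2 + yy n b / 4 * gg n b ^ 2

/-- the probability up to the factor `2 ^ (-n)` -/
noncomputable def PP (n b : ℕ) : ℝ := ‖T n true ((n : ℤ) + 1 - 2 * b)‖ ^ 2

theorem sgn_sq (b : ℕ) : ((-1 : ℝ) ^ b) ^ 2 = 1 := by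
  rw [← pow_mul, mul_comm, pow_mul]; simp

theorem gv_succ (n b : ℕ) :
    ((n : ℝ) - b) * b * gg n (b + 1) = -(((n : ℝ) - b) * b * gg n b) - (n - 2 * b) * vv n b := by
  have h := G_boost ((n : ℤ) - b - 1) ((b : ℤ) - 1)
  have e1 : (n : ℤ) - b - 1 + 1 = n - b := by ring
  have e2 : (b : ℤ) - 1 + 1 = b := by ring
  have e3 : (n : ℤ) - ((b + 1 : ℕ) : ℤ) = n - b - 1 := by push_cast; ring
  have e4 : ((b + 1 : ℕ) : ℤ) - 1 = b := by push_cast; ring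
  rw [e1, e2] at h
  have h' := congrArg (Int.cast : ℤ → ℝ) h
  push_cast at h'
  unfold gg vv
  rw [e3, e4, pow_succ]
  linear_combination ((-1 : ℝ) ^ b * b) * h'

theorem gw_succ (n b : ℕ) :
    (((n : ℝ) - b) * (gg n b + gg n (b + 1))) ^ 2 =
      ((n : ℝ) - 2 * b) ^ 2 * ((G ((n : ℤ) - b) b : ℝ) - G ((n : ℤ) - b) ((b : ℤ) - 1)) ^ 2 := by
  have h := G_boost ((n : ℤ) - b - 1) ((b : ℤ) - 1)
  have e1 : (n : ℤ) - b - 1 + 1 = n - b := by ring
  have e2 : (b : ℤ) - 1 + 1 = b := by ring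
  have e3 : (n : ℤ) - ((b + 1 : ℕ) : ℤ) = n - b - 1 := by push_cast; ring
  have e4 : ((b + 1 : ℕ) : ℤ) - 1 = b := by push_cast; ring
  rw [e1, e2] at h
  have h' := congrArg (Int.cast : ℤ → ℝ) h
  push_cast at h'
  have k : ((n : ℝ) - b) * (gg n b + gg n (b + 1)) = (-1) ^ b * (((n : ℝ) - 2 * b) *
      ((G ((n : ℤ) - b) b : ℝ) - G ((n : ℤ) - b) ((b : ℤ) - 1))) := by
    unfold gg
    rw [e3, e4, pow_succ]
    linear_combination ((-1 : ℝ) ^ b) * h'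
  rw [k, mul_pow, sgn_sq, mul_pow, one_mul]

theorem vv_succ (n b : ℕ) :
    vv n (b + 1) = -vv n b - ((n : ℝ) - 2 * b - 1) * gg n (b + 1) := by
  have h := G_boost ((n : ℤ) - b - 1) ((b : ℤ) - 1)
  have h2 := G_boost' ((n : ℤ) - b - 1) b
  have e1 : (n : ℤ) - b - 1 + 1 = n - b := by ring
  have e2 : (b : ℤ) - 1 + 1 = b := by ring
  have e3 : (n : ℤ) - ((b + 1 : ℕ) : ℤ) = n - b - 1 := by push_cast; ring
  have e4 : ((b + 1 : ℕ) : ℤ) - 1 = b := by push_cast; ring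
  rw [e1, e2] at h
  rw [e1] at h2
  have h' := congrArg (Int.cast : ℤ → ℝ) h
  have h2' := congrArg (Int.cast : ℤ → ℝ) h2
  push_cast at h' h2'
  unfold gg vv
  rw [e3, e4, pow_succ]
  push_cast
  linear_combination (-(-1 : ℝ) ^ b) * h2' + (-(-1 : ℝ) ^ b) * h'

theorem gg_succ (n b : ℕ) : ((n : ℝ) - b) * b * gg n (b + 1) =
    (((n : ℝ) - b) * b - yy n b / 2) * gg n b + (n - 2 * b) * rr n b := by
  rw [gv_succ]; unfold rr yy; ring

theorem rr_succ (n b : ℕ) : ((n : ℝ) - b) * b * rr n (b + 1) =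
    (((n : ℝ) - b) * b - yy n b / 2) * rr n b - (n - 2 * b) * yy n b / 4 * gg n b := by
  have h := gv_succ n b
  unfold rr yy
  rw [vv_succ]
  push_cast
  linear_combination (((n : ℝ) - 2 * b) / 2) * h

theorem yy_succ (n b : ℕ) : yy n (b + 1) = yy n b + 8 * ((n : ℝ) - 2 * b - 1) := by
  unfold yy; push_cast; ring

theorem ab_pos {n b : ℕ} (h1 : 1 ≤ b) (h2 : b < n) : 0 < ((n : ℝ) - b) * b :=
  mul_pos (sub_pos.2 (by exact_mod_cast h2)) (by exact_mod_cast h1)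

/-- the step is a rotation -/
theorem QQ_rot {n b : ℕ} (h1 : 1 ≤ b) (h2 : b < n) :
    QQ n b = rr n (b + 1) ^ 2 + yy n b / 4 * gg n (b + 1) ^ 2 := by
  have hp := ab_pos h1 h2
  have e : (((n : ℝ) - b) * b) ^ 2 * QQ n b =
      (((n : ℝ) - b) * b * rr n (b + 1)) ^ 2 +
        yy n b / 4 * (((n : ℝ) - b) * b * gg n (b + 1)) ^ 2 := by
    rw [gg_succ, rr_succ]; unfold QQ yy; ring
  refine mul_left_cancel₀ (pow_pos hp 2).ne' ?_
  rw [e]; ring

theorem QQ_succ {n b : ℕ} (h1 : 1 ≤ b) (h2 : b < n) :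
    QQ n (b + 1) = QQ n b + 2 * ((n : ℝ) - 2 * b - 1) * gg n (b + 1) ^ 2 := by
  rw [QQ_rot h1 h2]; unfold QQ; rw [yy_succ]; ring

theorem PP_eq (n b : ℕ) : PP n b =
    ((G ((n : ℤ) - b) b : ℝ) - G ((n : ℤ) - b) ((b : ℤ) - 1)) ^ 2 + gg n b ^ 2 := by
  have h := T_normSq n ((n : ℤ) - b) b (by ring)
  have e : (n : ℤ) - b + 1 - b = n + 1 - 2 * b := by ring
  rw [e] at h
  unfold PP gg
  rw [h, mul_pow, neg_sq, sgn_sq, one_mul]

theorem PP_vv (n b : ℕ) : (b : ℝ) ^ 2 * PP n b = (b : ℝ) ^ 2 * gg n b ^ 2 + vv n b ^ 2 := by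
  rw [PP_eq]; unfold vv
  rw [mul_pow, mul_pow, neg_sq, sgn_sq]; ring

theorem PP_gg (n b : ℕ) : ((n : ℝ) - 2 * b) ^ 2 * PP n b =
    ((n : ℝ) - 2 * b) ^ 2 * gg n b ^ 2 + (((n : ℝ) - b) * (gg n b + gg n (b + 1))) ^ 2 := by
  rw [PP_eq, gw_succ]; ring

theorem PP_nonneg (n b : ℕ) : 0 ≤ PP n b := by unfold PP; positivity

/-- the envelope -/
theorem envelope {n b : ℕ} (h1 : 1 ≤ b) : (b : ℝ) * yy n b * PP n b ≤ 4 * n * QQ n b := by
  have hb : (0 : ℝ) < b := by exact_mod_cast h1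
  refine le_of_mul_le_mul_left ?_ hb
  have e : (b : ℝ) * (b * yy n b * PP n b) = yy n b * ((b : ℝ) ^ 2 * PP n b) := by ring
  rw [e, PP_vv]
  have k : (b : ℝ) * (4 * n * QQ n b) - yy n b * ((b : ℝ) ^ 2 * gg n b ^ 2 + vv n b ^ 2) =
      (2 * ((n : ℝ) - b) * b * gg n b + (n - 2 * b) * vv n b) ^ 2 +
        (((n : ℝ) - 2 * b) * b * gg n b + 2 * b * vv n b) ^ 2 := by
    unfold QQ rr yy; ring
  have := add_nonneg (sq_nonneg (2 * ((n : ℝ) - b) * b * gg n b + (n - 2 * b) * vv n b))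
    (sq_nonneg (((n : ℝ) - 2 * b) * b * gg n b + 2 * b * vv n b))
  linarith

theorem gg_le_QQ (n b : ℕ) : yy n b * gg n b ^ 2 ≤ 4 * QQ n b := by
  unfold QQ; nlinarith [sq_nonneg (rr n b)]

theorem vv_le_QQ (n b : ℕ) : yy n b * vv n b ^ 2 ≤ 4 * (((n : ℝ) - b) * b) * QQ n b := by
  have k : 4 * (((n : ℝ) - b) * b) * QQ n b - yy n b * vv n b ^ 2 =
      (2 * ((n : ℝ) - b) * b * gg n b + (n - 2 * b) * vv n b) ^ 2 := by
    unfold QQ rr yy; ring
  have := sq_nonneg (2 * ((n : ℝ) - b) * b * gg n b + (n - 2 * b) * vv n b)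
  linarith

theorem gg_zero (n : ℕ) : gg n 0 = 0 := by
  unfold gg; rw [G_neg_right _ (by norm_num)]; simp

theorem gg_one {n : ℕ} (h : 1 ≤ n) : gg n 1 = 1 := by
  unfold gg
  have : ((1 : ℕ) : ℤ) - 1 = 0 := by norm_num
  rw [this, G_zero_right (by omega)]; simp

theorem rr_one {n : ℕ} (h : 1 ≤ n) : rr n 1 = n / 2 := by
  have h0 : vv n 0 = 0 := by unfold vv; simp
  have h1 := vv_succ n 0
  unfold rr
  rw [zero_add] at h1
  rw [h1, h0, gg_one h]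
  push_cast; ring

theorem gg_mirror {n b : ℕ} (h : b ≤ n) : gg n b ^ 2 = gg n (n - b + 1) ^ 2 := by
  unfold gg
  have e1 : (n : ℤ) - ((n - b + 1 : ℕ) : ℤ) = b - 1 := by omega
  have e2 : ((n - b + 1 : ℕ) : ℤ) - 1 = n - b := by omega
  rw [e1, e2, mul_pow, mul_pow, neg_sq, neg_sq, sgn_sq, sgn_sq, G_symm]

theorem vv_mirror {n b : ℕ} (h : b ≤ n) : vv n b ^ 2 = vv n (n - b) ^ 2 := by
  have k := G_boost ((n : ℤ) - b - 1) ((b : ℤ) - 1)
  have e1 : (n : ℤ) - b - 1 + 1 = n - b := by ring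
  have e2 : (b : ℤ) - 1 + 1 = b := by ring
  rw [e1, e2] at k
  have k' := congrArg (Int.cast : ℤ → ℝ) k
  push_cast at k'
  have e3 : (n : ℤ) - ((n - b : ℕ) : ℤ) = b := by omega
  have e4 : ((n - b : ℕ) : ℤ) = n - b := by omega
  unfold vv
  rw [e3, e4, Nat.cast_sub h, G_symm (b : ℤ) (n - b), G_symm (b : ℤ) (n - b - 1), mul_assoc,
    mul_assoc, mul_pow, mul_pow (-(-1 : ℝ) ^ (n - b)), neg_sq, neg_sq, sgn_sq, sgn_sq]
  congr 2
  linear_combination k'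

end Pool.Agent.Lib.MP_f387d3_mp.AI
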