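import Mathlib
import Pool.Agent.Lib.MP_f387d3_mp.AI.Sys

/-!
The region to the right of the peak, and the system in the scale of the peak.
-/

namespace Pool.Agent.Lib.MP_f387d3_mp.AI

open Pool.Agent.Lib.MP_f387d3_mp

/-- distance from the turning point in the scale `l`, where `n ^ 2 = 32 * l ^ 6` -/
noncomputable def tt (n : ℕ) (l : ℝ) (b : ℕ) : ℝ := (4 * l ^ 3 - ((n : ℝ) - 2 * b)) / l

theorem tt_succ (n : ℕ) (l : ℝ) (b : ℕ) : tt n l (b + 1) = tt n l b + 2 / l := by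
  unfold tt; push_cast; ring

theorem tt_add (n : ℕ) (l : ℝ) (b j : ℕ) : tt n l (b + j) = tt n l b + j * (2 / l) := by
  unfold tt; push_cast; ring

theorem tt_mono (n : ℕ) {l : ℝ} (hl : 0 < l) {b b' : ℕ} (h : b ≤ b') : tt n l b ≤ tt n l b' := by
  obtain ⟨j, rfl⟩ := Nat.exists_eq_add_of_le h
  rw [tt_add]; exact le_add_of_nonneg_right (by positivity)

theorem D_eq (n : ℕ) {l : ℝ} (hl : 0 < l) (b : ℕ) :
    (n : ℝ) - 2 * b = 4 * l ^ 3 - l * tt n l b := by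
  unfold tt; field_simp; ring

theorem yy_eq {n : ℕ} {l : ℝ} (hl : 0 < l) (hn : (n : ℝ) ^ 2 = 32 * l ^ 6) (b : ℕ) :
    yy n b = 2 * (l * tt n l b) * (8 * l ^ 3 - l * tt n l b) := by
  unfold yy; rw [D_eq n hl, hn]; ring

theorem ab_eq {n : ℕ} {l : ℝ} (hl : 0 < l) (hn : (n : ℝ) ^ 2 = 32 * l ^ 6) (b : ℕ) :
    ((n : ℝ) - b) * b = (32 * l ^ 6 - (4 * l ^ 3 - l * tt n l b) ^ 2) / 4 := by
  rw [← D_eq n hl, ← hn]; ring

theorem n_bounds {n : ℕ} {l : ℝ} (hl : 0 < l) (hn : (n : ℝ) ^ 2 = 32 * l ^ 6) :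
    28 / 5 * l ^ 3 ≤ n ∧ (n : ℝ) ≤ 57 / 10 * l ^ 3 := by
  have h3 : 0 < l ^ 3 := pow_pos hl 3
  have e : l ^ 6 = (l ^ 3) ^ 2 := by ring
  constructor
  · refine le_of_pow_le_pow_left₀ two_ne_zero (Nat.cast_nonneg n) ?_
    rw [hn, e, mul_pow]; nlinarith [sq_nonneg (l ^ 3)]
  · refine le_of_pow_le_pow_left₀ two_ne_zero (by positivity) ?_
    rw [hn, e, mul_pow]; nlinarith [sq_nonneg (l ^ 3)]

theorem exists_index (n : ℕ) {l : ℝ} (hl : 0 < l) {L : ℝ} {b : ℕ} (h : tt n l b ≤ L) :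
    ∃ j, b ≤ j ∧ tt n l j ≤ L ∧ L < tt n l (j + 1) := by
  have hh : 0 < 2 / l := by positivity
  have h0 : 0 ≤ (L - tt n l b) / (2 / l) := div_nonneg (sub_nonneg.2 h) hh.le
  have h1 := Nat.floor_le h0
  have h2 := Nat.lt_floor_add_one ((L - tt n l b) / (2 / l))
  rw [le_div_iff₀ hh] at h1
  rw [div_lt_iff₀ hh] at h2
  refine ⟨b + ⌊(L - tt n l b) / (2 / l)⌋₊, Nat.le_add_right _ _, ?_, ?_⟩
  · rw [tt_add]; linarith
  · rw [tt_succ, tt_add]; linarith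

/-- to the right of the turning point everything is positive -/
theorem forb {n : ℕ} {l : ℝ} (hl : 1 ≤ l) (hn : (n : ℝ) ^ 2 = 32 * l ^ 6) (j : ℕ)
    (hj : tt n l j ≤ 0) :
    0 < gg n (j + 1) ∧ 0 < rr n (j + 1) ∧ 0 ≤ QQ n (j + 1) ∧ gg n j < gg n (j + 1) := by
  have hl0 : 0 < l := by linarith
  have h3 : 1 ≤ l ^ 3 := one_le_pow₀ hl
  have hn1 : (1 : ℝ) ≤ n := by linarith [(n_bounds hl0 hn).1]
  have hn1' : 1 ≤ n := by exact_mod_cast hn1
  induction j with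
  | zero =>
    have e : QQ n 1 = 2 * (n - 1) := by
      unfold QQ yy; rw [gg_one hn1', rr_one hn1']; push_cast; ring
    rw [zero_add, e, gg_one hn1', rr_one hn1', gg_zero]
    exact ⟨one_pos, by linarith, by linarith, one_pos⟩
  | succ j ih =>
    obtain ⟨i1, i2, i3, -⟩ := ih ((tt_mono n hl0 (Nat.le_succ j)).trans hj)
    have hD := D_eq n hl0 (j + 1)
    have hd : l * tt n l (j + 1) ≤ 0 := mul_nonpos_of_nonneg_of_nonpos hl0.le hj
    have hlt : j + 1 < n := by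
      have : ((j + 1 : ℕ) : ℝ) < n := by
        have : (0 : ℝ) ≤ ((j + 1 : ℕ) : ℝ) := Nat.cast_nonneg _
        linarith
      exact_mod_cast this
    have hp := ab_pos (Nat.le_add_left 1 j) hlt
    have hy : yy n (j + 1) ≤ 0 := by
      rw [yy_eq hl0 hn]
      exact mul_nonpos_of_nonpos_of_nonneg (by linarith) (by linarith)
    have e1 := gg_succ n (j + 1)
    have e2 := rr_succ n (j + 1)
    have hD0 : 0 < (n : ℝ) - 2 * ((j + 1 : ℕ) : ℝ) := by linarith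
    have p1 := mul_pos hD0 i2
    have p2 := mul_nonneg (neg_nonneg.2 hy) i1.le
    have p3 := mul_nonneg (neg_nonneg.2 hy) i2.le
    have p4 := mul_nonneg hD0.le p2
    have p5 := mul_pos hp i2
    have k : gg n (j + 1) < gg n (j + 1 + 1) := lt_of_mul_lt_mul_left (by linarith) hp.le
    refine ⟨i1.trans k, (mul_pos_iff_of_pos_left hp).1 (by linarith), ?_, k⟩
    rw [QQ_succ (Nat.le_add_left 1 j) hlt]
    exact add_nonneg i3 (mul_nonneg (by linarith) (sq_nonneg _))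

theorem forb_up {n : ℕ} {l W : ℝ} (hW : 1 ≤ W) (hl : 2 * W ≤ l) (hn : (n : ℝ) ^ 2 = 32 * l ^ 6)
    (j : ℕ) (hj : tt n l j ≤ -W ^ 2) : W * QQ n (j + 1) ≤ 12 * l ^ 4 * gg n (j + 1) ^ 2 := by
  have hl1 : 1 ≤ l := by linarith
  have hl0 : 0 < l := by linarith
  have h3 : 1 ≤ l ^ 3 := one_le_pow₀ hl1
  obtain ⟨hn1, hn2⟩ := n_bounds hl0 hn
  have hn1' : 1 ≤ n := by exact_mod_cast (show (1 : ℝ) ≤ n by linarith)
  have hW2 : 0 ≤ W ^ 2 := sq_nonneg W
  have hl4 : l ^ 4 = l * l ^ 3 := by ring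
  induction j with
  | zero =>
    have e : QQ n 1 = 2 * (n - 1) := by
      unfold QQ yy; rw [gg_one hn1', rr_one hn1']; push_cast; ring
    rw [zero_add, e, gg_one hn1', hl4]
    have : W * (2 * ((n : ℝ) - 1)) ≤ l * (12 * l ^ 3) :=
      mul_le_mul (by linarith) (by linarith) (by linarith) hl0.le
    linarith
  | succ j ih =>
    have hj' := (tt_mono n hl0 (Nat.le_succ j)).trans hj
    have ih := ih hj'
    obtain ⟨i1, i2, i3, -⟩ := forb hl1 hn j (by linarith)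
    obtain ⟨i4, -, -, i5⟩ := forb hl1 hn (j + 1) (by linarith)
    have hD := D_eq n hl0 (j + 1)
    have hd : l * tt n l (j + 1) ≤ -(l * W ^ 2) := by
      have := mul_le_mul_of_nonneg_left hj hl0.le
      linarith
    have hlW : 0 ≤ l * W ^ 2 := by positivity
    have hb0 : (0 : ℝ) ≤ ((j + 1 : ℕ) : ℝ) := Nat.cast_nonneg _
    have hlt : j + 1 < n := by
      have : ((j + 1 : ℕ) : ℝ) < n := by linarith
      exact_mod_cast this
    have hp := ab_pos (Nat.le_add_left 1 j) hlt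
    have hy : yy n (j + 1) ≤ -(16 * l ^ 4 * W ^ 2) := by
      rw [yy_eq hl0 hn]
      have : l * W ^ 2 * (8 * l ^ 3) ≤ -(l * tt n l (j + 1)) * (8 * l ^ 3 - l * tt n l (j + 1)) :=
        mul_le_mul (by linarith) (by linarith) (by linarith) (by linarith)
      linarith
    have hr : 2 * l ^ 2 * W * gg n (j + 1) ≤ rr n (j + 1) := by
      refine le_of_pow_le_pow_left₀ two_ne_zero i2.le ?_
      have := mul_le_mul_of_nonneg_right hy (sq_nonneg (gg n (j + 1)))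
      unfold QQ at i3
      linarith
    have hab : ((n : ℝ) - ((j + 1 : ℕ) : ℝ)) * ((j + 1 : ℕ) : ℝ) ≤
        l ^ 3 * ((n : ℝ) - 2 * ((j + 1 : ℕ) : ℝ)) := by
      rw [ab_eq hl0 hn, hD]
      have k1 : (4 * l ^ 3) ^ 2 ≤ (4 * l ^ 3 - l * tt n l (j + 1)) ^ 2 :=
        pow_le_pow_left₀ (by linarith) (by linarith) 2
      have k2 : l ^ 3 * (4 * l ^ 3) ≤ l ^ 3 * (4 * l ^ 3 - l * tt n l (j + 1)) :=
        mul_le_mul_of_nonneg_left (by linarith) (by linarith)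
      linarith
    have hg : (l + 2 * W) * gg n (j + 1) ≤ l * gg n (j + 1 + 1) := by
      have e1 := gg_succ n (j + 1)
      have hy0 : 0 ≤ -yy n (j + 1) := by
        have : 0 ≤ 16 * l ^ 4 * W ^ 2 := by positivity
        linarith
      have p2 := mul_nonneg hy0 i1.le
      have p3 := mul_le_mul_of_nonneg_right hab i2.le
      have p4 := mul_le_mul_of_nonneg_left hr hp.le
      refine le_of_mul_le_mul_left ?_ (mul_pos hp (pow_pos hl0 2))
      have p5 := mul_nonneg (pow_pos hl0 3).le p2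
      have p6 := congrArg (fun x => l ^ 3 * x) e1
      linarith
    have hg2 : (l + 2 * W) * gg n (j + 1) ^ 2 ≤ l * gg n (j + 1 + 1) ^ 2 := by
      have := mul_le_mul hg i5.le i1.le (mul_nonneg hl0.le i4.le)
      linarith
    rw [QQ_succ (Nat.le_add_left 1 j) hlt]
    refine le_of_mul_le_mul_left ?_ (show 0 < l + 2 * W by linarith)
    have q1 := mul_le_mul_of_nonneg_left ih (show 0 ≤ l + 2 * W by linarith)
    have q2 := mul_le_mul_of_nonneg_left hg2 (show 0 ≤ 12 * l ^ 4 by positivity)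
    have q3 : (l + 2 * W) * (2 * ((n : ℝ) - 2 * ((j + 1 : ℕ) : ℝ) - 1)) ≤ (2 * l) * (12 * l ^ 3) :=
      mul_le_mul (by linarith) (by linarith) (by linarith) (by linarith)
    have q4 := mul_le_mul_of_nonneg_right q3
      (mul_nonneg (show 0 ≤ W by linarith) (sq_nonneg (gg n (j + 1 + 1))))
    linarith

/-- positions near the peak -/
theorem near {n : ℕ} {l : ℝ} (hl : 2 ≤ l) (hn : (n : ℝ) ^ 2 = 32 * l ^ 6) {b : ℕ}
    (hb : |tt n l b| ≤ l ^ 2 / 10) :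
    1 ≤ b ∧ 5 * b ≤ n ∧ 3 * l ^ 6 ≤ ((n : ℝ) - b) * b ∧ 3 * l ^ 3 ≤ (n : ℝ) - 2 * b - 1 := by
  have hl0 : 0 < l := by linarith
  have h3 : 2 ^ 3 ≤ l ^ 3 := pow_le_pow_left₀ (by norm_num) hl 3
  obtain ⟨hn1, hn2⟩ := n_bounds hl0 hn
  have hD := D_eq n hl0 b
  have k1 := mul_le_mul_of_nonneg_left (abs_le.1 hb).1 hl0.le
  have k2 := mul_le_mul_of_nonneg_left (abs_le.1 hb).2 hl0.le
  refine ⟨by exact_mod_cast (show (1 : ℝ) ≤ b by linarith),
    by exact_mod_cast (show 5 * (b : ℝ) ≤ n by linarith), ?_, by linarith⟩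
  rw [ab_eq hl0 hn]
  have : (4 * l ^ 3 - l * tt n l b) ^ 2 ≤ (41 / 10 * l ^ 3) ^ 2 :=
    pow_le_pow_left₀ (by linarith) (by linarith) 2
  have : 0 < l ^ 6 := pow_pos hl0 6
  linarith

/-- the system in the scale of the peak -/
theorem coef {n : ℕ} {l : ℝ} (hl : 2 ≤ l) (hn : (n : ℝ) ^ 2 = 32 * l ^ 6) {b : ℕ} {R : ℝ}
    (hb : |tt n l b| ≤ R) (hR : R ≤ l ^ 2 / 10) : ∃ η κ κ' : ℝ,
    (|η| ≤ 3 * (R / l ^ 2) ∧ |κ - 1| ≤ R / l ^ 2 ∧ |κ' - 1| ≤ R / l ^ 2) ∧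
    gg n (b + 1) = (1 - η) * gg n b + 2 / l * κ * (rr n b / (2 * l ^ 2)) ∧
    rr n (b + 1) / (2 * l ^ 2) =
      (1 - η) * (rr n b / (2 * l ^ 2)) - 2 / l * κ' * tt n l b * gg n b := by
  have hl0 : 0 < l := by linarith
  have hl2 : 0 < l ^ 2 := pow_pos hl0 2
  obtain ⟨e, he⟩ : ∃ e, tt n l b = l ^ 2 * e := ⟨tt n l b / l ^ 2, by field_simp⟩
  have he1 : |e| ≤ R / l ^ 2 := by
    rw [he, abs_mul, abs_of_pos hl2] at hb
    rw [le_div_iff₀ hl2]; linarith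
  have he2 : R / l ^ 2 ≤ 1 / 10 := by rw [div_le_iff₀ hl2]; linarith
  obtain ⟨he3, he4⟩ := abs_le.1 (he1.trans he2)
  have hden : 15 ≤ 16 + 8 * e - e ^ 2 := by nlinarith
  have hden0 : 0 < 16 + 8 * e - e ^ 2 := by linarith
  have bd : ∀ x k : ℝ, |x| ≤ 15 * k → |e * x / (16 + 8 * e - e ^ 2)| ≤ k * (R / l ^ 2) := by
    intro x k hx
    have hk : 0 ≤ k := by linarith [abs_nonneg x]
    rw [abs_div, abs_of_pos hden0, div_le_iff₀ hden0, abs_mul]
    calc |e| * |x| ≤ R / l ^ 2 * (15 * k) :=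
          mul_le_mul he1 hx (abs_nonneg _) ((abs_nonneg _).trans he1)
      _ = k * (R / l ^ 2) * 15 := by ring
      _ ≤ _ := mul_le_mul_of_nonneg_left hden (mul_nonneg hk ((abs_nonneg _).trans he1))
  have hD := D_eq n hl0 b
  have hy := yy_eq hl0 hn b
  have hab := ab_eq hl0 hn b
  rw [he] at hD hy hab
  have hab' : ((n : ℝ) - b) * b = l ^ 6 * (16 + 8 * e - e ^ 2) / 4 := by rw [hab]; ring
  have e1 := gg_succ n b
  have e2 := rr_succ n b
  rw [hab', hy, hD] at e1 e2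
  have hne : l ^ 6 * (16 + 8 * e - e ^ 2) / 4 ≠ 0 := by positivity
  refine ⟨e * (4 * (8 - e)) / (16 + 8 * e - e ^ 2), 1 + e * (e - 12) / (16 + 8 * e - e ^ 2),
    1 + e * ((3 * e - 28) / 2) / (16 + 8 * e - e ^ 2), ⟨?_, ?_, ?_⟩, ?_, ?_⟩
  · exact bd _ 3 (abs_le.2 ⟨by linarith, by linarith⟩)
  · rw [add_sub_cancel_left, ← one_mul (R / l ^ 2)]
    exact bd _ 1 (abs_le.2 ⟨by linarith, by linarith⟩)
  · rw [add_sub_cancel_left, ← one_mul (R / l ^ 2)]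
    exact bd _ 1 (abs_le.2 ⟨by linarith, by linarith⟩)
  · refine mul_left_cancel₀ hne ?_
    rw [e1]; field_simp; ring
  · refine mul_left_cancel₀ hne ?_
    rw [← mul_div_assoc, e2, he]; field_simp; ring

end Pool.Agent.Lib.MP_f387d3_mp.AI
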