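import Mathlib
import Pool.Agent.Lib.MP_f387d3_mp.AI.Sys

/-!
The quotient of the quadratic form by the discriminant is nonincreasing. Consequences to the left
of the first turning point.
-/

namespace Pool.Agent.Lib.MP_f387d3_mp.AI

open Pool.Agent.Lib.MP_f387d3_mp

/-- the monotone quantity -/
noncomputable def SS (n b : ℕ) : ℝ := QQ n b / yy n b

theorem yy_mono {n b b' : ℕ} (h : b ≤ b') (h2 : b + b' ≤ n) : yy n b ≤ yy n b' := by
  have h' : (b : ℝ) ≤ b' := by exact_mod_cast h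
  have h2' : (b : ℝ) + b' ≤ n := by exact_mod_cast h2
  unfold yy
  nlinarith [mul_nonneg (sub_nonneg.2 h') (sub_nonneg.2 h2')]

theorem QQ_nonneg {n b : ℕ} (hy : 0 < yy n b) : 0 ≤ QQ n b := by unfold QQ; positivity

theorem SS_nonneg {n b : ℕ} (hy : 0 < yy n b) : 0 ≤ SS n b := div_nonneg (QQ_nonneg hy) hy.le

theorem QQ_eq {n b : ℕ} (hy : 0 < yy n b) : QQ n b = SS n b * yy n b :=
  (div_mul_cancel₀ _ hy.ne').symm

theorem SS_drop {n b : ℕ} (h1 : 1 ≤ b) (h2 : 2 * b + 1 ≤ n) (hy : 0 < yy n b) :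
    SS n b = SS n (b + 1) +
      8 * ((n : ℝ) - 2 * b - 1) * rr n (b + 1) ^ 2 / (yy n b * yy n (b + 1)) := by
  have hy' : 0 < yy n (b + 1) := hy.trans_le (yy_mono (by omega) (by omega))
  have e1 := QQ_rot h1 (show b < n by omega)
  have e2 : QQ n (b + 1) = rr n (b + 1) ^ 2 + yy n (b + 1) / 4 * gg n (b + 1) ^ 2 := rfl
  have e3 := yy_succ n b
  unfold SS
  rw [e1, e2]
  field_simp
  rw [e3]; ring

theorem SS_step {n b : ℕ} (h1 : 1 ≤ b) (h2 : 2 * b + 1 ≤ n) (hy : 0 < yy n b) :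
    SS n (b + 1) ≤ SS n b := by
  have hy' : 0 < yy n (b + 1) := hy.trans_le (yy_mono (by omega) (by omega))
  have h3 : (0 : ℝ) ≤ (n : ℝ) - 2 * b - 1 := by
    have : ((2 * b + 1 : ℕ) : ℝ) ≤ n := by exact_mod_cast h2
    push_cast at this; linarith
  rw [SS_drop h1 h2 hy]
  exact le_add_of_nonneg_right (by positivity)

theorem SS_anti {n c b : ℕ} (h1 : 1 ≤ c) (hy : 0 < yy n c) (h : c ≤ b) (h2 : 2 * b ≤ n + 1) :
    SS n b ≤ SS n c := by
  induction b, h using Nat.le_induction with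
  | base => exact le_rfl
  | succ b hb ih =>
    exact (SS_step (by omega) (by omega) (hy.trans_le (yy_mono hb (by omega)))).trans
      (ih (by omega))

theorem PP_le_SS {n b : ℕ} (h1 : 1 ≤ b) (hy : 0 < yy n b) : (b : ℝ) * PP n b ≤ 4 * n * SS n b := by
  have h := envelope (n := n) h1
  rw [QQ_eq hy] at h
  refine le_of_mul_le_mul_left ?_ hy
  linarith

theorem gg_le_SS {n b : ℕ} (hy : 0 < yy n b) : gg n b ^ 2 ≤ 4 * SS n b := by
  have h := gg_le_QQ n b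
  rw [QQ_eq hy] at h
  refine le_of_mul_le_mul_left ?_ hy
  linarith

theorem vv_le_SS {n b : ℕ} (hy : 0 < yy n b) :
    vv n b ^ 2 ≤ 4 * (((n : ℝ) - b) * b) * SS n b := by
  have h := vv_le_QQ n b
  rw [QQ_eq hy] at h
  refine le_of_mul_le_mul_left ?_ hy
  linarith

/-- at the last index with positive momentum the form is controlled by the first component -/
theorem turn_SS {n c : ℕ} (hy : 0 < yy n c) (hr : 0 < rr n c) (hr' : rr n (c + 1) ≤ 0)
    (h1 : 1 ≤ c) (h2 : c < n) (hη : yy n c < 2 * (((n : ℝ) - c) * c)) :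
    4 * SS n c * (((n : ℝ) - c) * c - yy n c / 2) ^ 2 ≤ (((n : ℝ) - c) * c) ^ 2 * gg n c ^ 2 := by
  have hp := ab_pos h1 h2
  have e := rr_succ n c
  have k0 : ((n : ℝ) - c) * c * rr n (c + 1) ≤ 0 := mul_nonpos_of_nonneg_of_nonpos hp.le hr'
  have k1 : 0 ≤ (((n : ℝ) - c) * c - yy n c / 2) * rr n c := mul_nonneg (by linarith) hr.le
  have k2 : ((((n : ℝ) - c) * c - yy n c / 2) * rr n c) ^ 2 ≤
      ((n - 2 * c) * yy n c / 4 * gg n c) ^ 2 := pow_le_pow_left₀ k1 (by linarith) 2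
  refine le_of_mul_le_mul_left ?_ hy
  have e1 : yy n c * (4 * SS n c * (((n : ℝ) - c) * c - yy n c / 2) ^ 2) =
      4 * QQ n c * (((n : ℝ) - c) * c - yy n c / 2) ^ 2 := by rw [QQ_eq hy]; ring
  have e2 : yy n c * ((((n : ℝ) - c) * c) ^ 2 * gg n c ^ 2) =
      4 * ((n - 2 * c) * yy n c / 4 * gg n c) ^ 2 +
        yy n c * gg n c ^ 2 * (((n : ℝ) - c) * c - yy n c / 2) ^ 2 := by
    unfold yy; ring
  rw [e1, e2]
  unfold QQ
  nlinarith

theorem turn_PP {n c : ℕ} (hg : 0 < gg n c) (hr : 0 < rr n c) (h2 : 2 * c ≤ n) :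
    (4 * c * n - yy n c) * gg n c ^ 2 ≤ 4 * (c : ℝ) ^ 2 * PP n c := by
  have h2' : (0 : ℝ) ≤ (n : ℝ) - 2 * c := by
    have : ((2 * c : ℕ) : ℝ) ≤ n := by exact_mod_cast h2
    push_cast at this; linarith
  have e := PP_vv n c
  have e1 : vv n c = -(rr n c + ((n : ℝ) - 2 * c) * gg n c / 2) := by unfold rr; ring
  have k : 0 ≤ rr n c * (((n : ℝ) - 2 * c) * gg n c) := by positivity
  rw [mul_assoc 4 ((c : ℝ) ^ 2), e, e1]
  unfold yy
  nlinarith [sq_nonneg (rr n c)]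

/-- after a drop of the monotone quantity the probability stays below its value at the turn -/
theorem mid_lt {n c b₃ b : ℕ} {θ ω : ℝ} (hy : 0 < yy n c) (hg : 0 < gg n c) (hr : 0 < rr n c)
    (hr' : rr n (c + 1) ≤ 0) (h1 : 1 ≤ c) (h5 : 5 * c ≤ n) (hω : ω ≤ 1 / 10)
    (hω1 : yy n c ≤ 2 * ω * (((n : ℝ) - c) * c)) (hθ : 1 < (1 + θ) * (1 - ω) ^ 3)
    (h3 : c ≤ b₃) (hd : (1 + θ) * SS n b₃ ≤ SS n c) (h4 : b₃ ≤ b) (hb : 2 * b ≤ n + 1) :
    PP n b < PP n c := by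
  have hc : (1 : ℝ) ≤ c := by exact_mod_cast h1
  have hn : 5 * (c : ℝ) ≤ n := by exact_mod_cast h5
  have hp := ab_pos h1 (show c < n by omega)
  have hcb : (c : ℝ) ≤ b := by exact_mod_cast h3.trans h4
  have hy3 : 0 < yy n b₃ := hy.trans_le (yy_mono h3 (by omega))
  have hyb : 0 < yy n b := hy.trans_le (yy_mono (h3.trans h4) (by omega))
  have a1 := PP_le_SS (n := n) (b := b) (by omega) hyb
  have a2 := SS_anti (n := n) (c := b₃) (by omega) hy3 h4 hb
  have a3 := turn_SS hy hr hr' h1 (by omega) (by nlinarith)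
  have a4 := turn_PP hg hr (by omega)
  have hS := SS_nonneg hy
  have hω0 : 0 ≤ ω := by
    by_contra h
    have : 2 * ω * (((n : ℝ) - c) * c) < 0 := mul_neg_of_neg_of_pos (by linarith) hp
    linarith
  have b1 : 4 * SS n c * (1 - ω) ^ 2 ≤ gg n c ^ 2 := by
    refine le_of_mul_le_mul_left ?_ (pow_pos hp 2)
    refine le_trans ?_ a3
    have : ((((n : ℝ) - c) * c) * (1 - ω)) ^ 2 ≤ (((n : ℝ) - c) * c - yy n c / 2) ^ 2 :=
      pow_le_pow_left₀ (mul_nonneg hp.le (by linarith)) (by linarith) 2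
    nlinarith
  have b2 : (n : ℝ) * (1 - ω) * gg n c ^ 2 ≤ c * PP n c := by
    refine le_of_mul_le_mul_left ?_ (show (0 : ℝ) < 4 * c by linarith)
    have : 4 * c * (n * (1 - ω)) ≤ 4 * c * n - yy n c := by
      have : 2 * ω * (((n : ℝ) - c) * c) ≤ 4 * c * n * ω := by
        nlinarith [mul_nonneg hω0 (mul_nonneg (by linarith : (0 : ℝ) ≤ c)
          (by linarith : (0 : ℝ) ≤ n + c))]
      linarith
    nlinarith [mul_le_mul_of_nonneg_right this (sq_nonneg (gg n c))]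
  have b3 : (c : ℝ) * PP n b ≤ 4 * n * SS n b₃ :=
    (mul_le_mul_of_nonneg_right hcb (PP_nonneg n b)).trans
      (a1.trans (mul_le_mul_of_nonneg_left a2 (by linarith)))
  have hPc : 0 < (c : ℝ) * PP n c :=
    lt_of_lt_of_le (mul_pos (mul_pos (by linarith) (by linarith)) (pow_pos hg 2)) b2
  have b4 : (1 + θ) * (1 - ω) ^ 3 * (c * PP n b) ≤ c * PP n c := by
    have w0 : 0 ≤ 1 - ω := by linarith
    calc (1 + θ) * (1 - ω) ^ 3 * (c * PP n b) ≤ (1 + θ) * (1 - ω) ^ 3 * (4 * n * SS n b₃) :=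
          mul_le_mul_of_nonneg_left b3 (by linarith)
      _ = n * (1 - ω) * (4 * ((1 + θ) * SS n b₃) * (1 - ω) ^ 2) := by ring
      _ ≤ n * (1 - ω) * (4 * SS n c * (1 - ω) ^ 2) := by gcongr
      _ ≤ n * (1 - ω) * gg n c ^ 2 := by gcongr
      _ ≤ _ := b2
  by_contra hlt
  have h6 : (c : ℝ) * PP n c ≤ c * PP n b :=
    mul_le_mul_of_nonneg_left (not_lt.1 hlt) (by linarith)
  nlinarith

/-- the left half line -/
theorem left_lt {n c b : ℕ} {M : ℝ} (hM : ∀ j, PP n j ≤ M) (hy : 0 < yy n c) (hg : 0 < gg n c)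
    (hr : 0 < rr n c) (hr' : rr n (c + 1) ≤ 0) (h1 : 1 ≤ c) (h5 : 5 * c ≤ n) (hn : 200 ≤ n)
    (hω1 : yy n c ≤ 2 * (1 / 10) * (((n : ℝ) - c) * c)) (hb : n + 1 ≤ 2 * b) : PP n b < M := by
  have hc : (1 : ℝ) ≤ c := by exact_mod_cast h1
  have hn5 : 5 * (c : ℝ) ≤ n := by exact_mod_cast h5
  have hn' : (200 : ℝ) ≤ n := by exact_mod_cast hn
  have hp := ab_pos h1 (show c < n by omega)
  have a4 := turn_PP hg hr (by omega)
  have b2 : 4 * gg n c ^ 2 ≤ M := by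
    refine le_trans ?_ (hM c)
    refine le_of_mul_le_mul_left ?_ (show (0 : ℝ) < 4 * c ^ 2 by positivity)
    have : 4 * (c : ℝ) ^ 2 * 4 ≤ 4 * c * n - yy n c := by nlinarith
    nlinarith [mul_le_mul_of_nonneg_right this (sq_nonneg (gg n c))]
  have hM0 : 0 < M := lt_of_lt_of_le (by positivity) b2
  rcases lt_or_ge n b with hnb | hnb
  · have ha : (n : ℤ) - b < 0 := by omega
    rw [PP_eq]; unfold gg
    rw [G_neg_left _ ha, G_neg_left _ ha]
    simpa using hM0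
  obtain ⟨j, rfl⟩ : ∃ j, n = j + b := ⟨n - b, by omega⟩
  have e1 := gg_mirror hnb
  have e2 := vv_mirror hnb
  rw [Nat.add_sub_cancel] at e1 e2
  have e := PP_vv (j + b) b
  rw [e1, e2] at e
  have hjb : (j : ℝ) + 1 ≤ b := by exact_mod_cast (show j + 1 ≤ b by omega)
  have hj0 : (0 : ℝ) ≤ j := Nat.cast_nonneg j
  have hb0 : (0 : ℝ) < (b : ℝ) ^ 2 := pow_pos (by linarith) 2
  refine lt_of_mul_lt_mul_left ?_ hb0.le
  rw [e]
  rcases le_or_gt c j with hcj | hcj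
  · have hyj : 0 < yy (j + b) j := hy.trans_le (yy_mono hcj (by omega))
    have hyj' : 0 < yy (j + b) (j + 1) := hy.trans_le (yy_mono (by omega) (by omega))
    have a1 := (gg_le_SS hyj').trans
      (mul_le_mul_of_nonneg_left (SS_anti h1 hy (show c ≤ j + 1 by omega) (by omega))
        (by norm_num))
    have a2 := vv_le_SS hyj
    have a2' := SS_anti h1 hy hcj (by omega)
    have hSj := SS_nonneg hyj
    have a3 := turn_SS hy hr hr' h1 (by omega) (by nlinarith)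
    have hS := SS_nonneg hy
    have b1 : 4 * SS (j + b) c * (9 / 10) ^ 2 ≤ gg (j + b) c ^ 2 := by
      refine le_of_mul_le_mul_left ?_ (pow_pos hp 2)
      refine le_trans ?_ a3
      have : (((((j + b : ℕ) : ℝ) - c) * c) * (9 / 10)) ^ 2 ≤
          ((((j + b : ℕ) : ℝ) - c) * c - yy (j + b) c / 2) ^ 2 :=
        pow_le_pow_left₀ (mul_nonneg hp.le (by linarith)) (by linarith) 2
      nlinarith
    have b3 : vv (j + b) j ^ 2 ≤ (b : ℝ) ^ 2 * (4 * SS (j + b) c) := by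
      refine a2.trans ?_
      push_cast
      have : ((j : ℝ) + b - j) * j ≤ (b : ℝ) ^ 2 := by nlinarith
      calc 4 * (((j : ℝ) + b - j) * j) * SS (j + b) j ≤ 4 * (b : ℝ) ^ 2 * SS (j + b) c := by
            gcongr
        _ = _ := by ring
    have b4 := mul_le_mul_of_nonneg_left a1 hb0.le
    have b5 : 8 * SS (j + b) c < M := by nlinarith
    nlinarith
  · have hcj' : (j : ℝ) ≤ c := by exact_mod_cast hcj.le
    push_cast at hn5 hn'
    have v1 : vv (j + b) j ^ 2 ≤ (j : ℝ) ^ 2 * M := by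
      have := PP_vv (j + b) j
      nlinarith [mul_le_mul_of_nonneg_left (hM j) (sq_nonneg (j : ℝ)),
        mul_nonneg (sq_nonneg (j : ℝ)) (sq_nonneg (gg (j + b) j))]
    have v2 : vv (j + b) (j + 1) ^ 2 ≤ ((j : ℝ) + 1) ^ 2 * M := by
      have := PP_vv (j + b) (j + 1)
      push_cast at this
      nlinarith [mul_le_mul_of_nonneg_left (hM (j + 1)) (sq_nonneg ((j : ℝ) + 1)),
        mul_nonneg (sq_nonneg ((j : ℝ) + 1)) (sq_nonneg (gg (j + b) (j + 1)))]
    have v3 := vv_succ (j + b) j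
    push_cast at v3
    have v4 : ((b : ℝ) - j - 1) ^ 2 * gg (j + b) (j + 1) ^ 2 ≤ 4 * ((j : ℝ) + 1) ^ 2 * M := by
      have : ((b : ℝ) - j - 1) * gg (j + b) (j + 1) = -(vv (j + b) j + vv (j + b) (j + 1)) := by
        linarith
      rw [← mul_pow, this]
      have : (j : ℝ) ^ 2 * M ≤ ((j : ℝ) + 1) ^ 2 * M := by gcongr; linarith
      nlinarith [sq_nonneg (vv (j + b) j - vv (j + b) (j + 1))]
    have v5 : gg (j + b) (j + 1) ^ 2 ≤ 49 / 100 * M := by
      have hD : (0 : ℝ) < (b : ℝ) - j - 1 := by linarith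
      refine le_of_mul_le_mul_left (v4.trans ?_) (pow_pos hD 2)
      have : (2 * ((j : ℝ) + 1)) ^ 2 ≤ (7 / 10 * ((b : ℝ) - j - 1)) ^ 2 :=
        pow_le_pow_left₀ (by linarith) (by linarith) 2
      nlinarith
    have v6 : (j : ℝ) ^ 2 ≤ (b : ℝ) ^ 2 / 16 := by nlinarith
    nlinarith [mul_le_mul_of_nonneg_left v5 hb0.le, mul_le_mul_of_nonneg_right v6 hM0.le,
      mul_pos hb0 hM0]

end Pool.Agent.Lib.MP_f387d3_mp.AI
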