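import Mathlib

/-!
Comparison of a discrete rotation system with shifted solutions of the Airy equation through
discrete Wronskians.
-/

namespace Pool.Agent.Lib.MP_f387d3_mp.AI

theorem am {x y a b : ℝ} (hx : |x| ≤ a) (hy : |y| ≤ b) : |x * y| ≤ a * b := by
  rw [abs_mul]; exact mul_le_mul hx hy (abs_nonneg _) ((abs_nonneg _).trans hx)

theorem wr_X {η κ κ' τ h e B C Bp Cp δ M : ℝ} (hM : 1 ≤ M) (hh : 0 ≤ h) (hδ : 0 ≤ δ)
    (hB : |B| ≤ M) (hC : |C| ≤ M) (hBp : |Bp| ≤ M) (hCp : |Cp| ≤ M) (hτ : |τ| ≤ M)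
    (hη : |η| ≤ δ * h) (hκ : |κ - 1| ≤ δ) (hκ' : |κ' - 1| ≤ δ)
    (d1 : |Bp - B| ≤ δ) (d2 : |Cp - C| ≤ δ) (e1 : |Bp - B + h * C| ≤ δ * h)
    (e2 : |Cp - C + h * ((-τ - e) * B)| ≤ δ * h) :
    |(((1 - η) * (-C) - h * κ' * τ * B) * Bp + ((1 - η) * B - h * κ * C) * Cp) - h * e * B ^ 2|
      ≤ 8 * (δ * h * M ^ 3) := by
  have id : (((1 - η) * (-C) - h * κ' * τ * B) * Bp + ((1 - η) * B - h * κ * C) * Cp)
      - h * e * B ^ 2 = B * (Cp - C + h * ((-τ - e) * B)) - C * (Bp - B + h * C)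
        - η * (B * Cp) + η * (C * Bp) - h * ((κ' - 1) * (τ * (B * Bp))) - h * (τ * (B * (Bp - B)))
        - h * ((κ - 1) * (C * Cp)) - h * (C * (Cp - C)) := by ring
  have hh' : |h| ≤ h := (abs_of_nonneg hh).le
  have t1 := abs_le.1 (am hB e2)
  have t2 := abs_le.1 (am hC e1)
  have t3 := abs_le.1 (am hη (am hB hCp))
  have t4 := abs_le.1 (am hη (am hC hBp))
  have t5 := abs_le.1 (am hh' (am hκ' (am hτ (am hB hBp))))
  have t6 := abs_le.1 (am hh' (am hτ (am hB d1)))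
  have t7 := abs_le.1 (am hh' (am hκ (am hC hCp)))
  have t8 := abs_le.1 (am hh' (am hC d2))
  have p : 0 ≤ δ * h := mul_nonneg hδ hh
  have m2 : M ^ 2 ≤ M ^ 3 := pow_le_pow_right₀ hM (by norm_num)
  have m1 : M ^ 1 ≤ M ^ 3 := pow_le_pow_right₀ hM (by norm_num)
  have q2 := mul_le_mul_of_nonneg_left m2 p
  have q1 := mul_le_mul_of_nonneg_left m1 p
  rw [id, abs_le]
  constructor <;> linarith [t1.1, t1.2, t2.1, t2.2, t3.1, t3.2, t4.1, t4.2, t5.1, t5.2, t6.1,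
    t6.2, t7.1, t7.2, t8.1, t8.2]

theorem wr_id (g ρ η κ κ' τ h B C Bp Cp : ℝ) :
    B * (((1 - η) * ρ - h * κ' * τ * g) * Bp + ((1 - η) * g + h * κ * ρ) * Cp) =
      g * (((1 - η) * (-C) - h * κ' * τ * B) * Bp + ((1 - η) * B - h * κ * C) * Cp) +
        (ρ * B + g * C) * ((1 - η) * Bp + h * κ * Cp) := by ring

theorem wr_Y {η κ h B C δ M m : ℝ} (hh : 0 ≤ h) (hh1 : h ≤ 1) (hδ : δ ≤ 1 / 2) (hm : 0 < m)
    (hB : m ≤ B) (hC : |C| ≤ M) (hη : |η| ≤ δ * h) (hκ : |κ - 1| ≤ δ) (hs : 4 * (h * M) ≤ m) :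
    0 < (1 - η) * B + h * κ * C ∧ 0 < (1 - η) * B - h * κ * C := by
  have hδ0 : 0 ≤ δ := (abs_nonneg _).trans hκ
  have k : |κ| ≤ 3 / 2 := by
    rw [abs_le] at hκ ⊢; constructor <;> linarith [hκ.1, hκ.2]
  have t := abs_le.1 (am (am (abs_of_nonneg hh).le k) hC)
  have u : η ≤ 1 / 2 := by
    have := (abs_le.1 hη).2
    nlinarith
  have v : 1 / 2 * m ≤ (1 - η) * B := mul_le_mul (by linarith) hB hm.le (by linarith)
  constructor <;> linarith [t.1, t.2]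

/-- the ratio `ρ / g` stays between the logarithmic derivatives of the two shifted solutions -/
theorem wr_range {A A' : ℝ → ℝ} {g ρ τ η κ κ' : ℕ → ℝ} {J : ℕ} {h ε δ M m R lo : ℝ}
    (hM : 1 ≤ M) (hh : 0 ≤ h) (hh1 : h ≤ 1) (hδ0 : 0 ≤ δ) (hδ : δ ≤ 1 / 2) (hm : 0 < m)
    (hε : 0 ≤ ε) (hRM : R ≤ M) (hs : 4 * (h * M) ≤ m) (hδε : 8 * (δ * M ^ 3) ≤ ε * m ^ 2)
    (hbd : ∀ s, |s| ≤ R + 1 → |A s| ≤ M ∧ |A' s| ≤ M)
    (hlo : ∀ s, lo ≤ s → |s| ≤ R → m ≤ A s)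
    (hst : ∀ s, |s| ≤ R → |A (s - h) - A s| ≤ δ ∧ |A' (s - h) - A' s| ≤ δ ∧
      |A (s - h) - A s + h * A' s| ≤ δ * h ∧ |A' (s - h) - A' s + h * (s * A s)| ≤ δ * h)
    (hτ : ∀ j, τ (j + 1) = τ j + h) (hτR : ∀ j ≤ J, |τ j| + ε ≤ R ∧ lo ≤ -τ j - ε)
    (hco : ∀ j < J, |η j| ≤ δ * h ∧ |κ j - 1| ≤ δ ∧ |κ' j - 1| ≤ δ)
    (hg : ∀ j < J, g (j + 1) = (1 - η j) * g j + h * κ j * ρ j)
    (hρ : ∀ j < J, ρ (j + 1) = (1 - η j) * ρ j - h * κ' j * τ j * g j)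
    (h0 : 0 < g 0 ∧ 0 ≤ ρ 0 * A (-τ 0 - ε) + g 0 * A' (-τ 0 - ε) ∧
      ρ 0 * A (-τ 0 - -ε) + g 0 * A' (-τ 0 - -ε) ≤ 0) (j : ℕ) (hj : j ≤ J) :
    0 < g j ∧ 0 ≤ ρ j * A (-τ j - ε) + g j * A' (-τ j - ε) ∧
      ρ j * A (-τ j - -ε) + g j * A' (-τ j - -ε) ≤ 0 := by
  induction j with
  | zero => exact h0
  | succ j ih =>
    obtain ⟨i1, i2, i3⟩ := ih (by omega)
    obtain ⟨c1, c2, c3⟩ := hco j hj
    obtain ⟨r1, r2⟩ := hτR j (by omega)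
    obtain ⟨r3, r4⟩ := hτR (j + 1) hj
    have hτM : |τ j| ≤ M := by linarith
    have ab : ∀ x e : ℝ, |x| + ε ≤ R → |e| ≤ ε → |-x - e| ≤ R := fun x e hx he => by
      have := abs_sub (-x) e
      rw [abs_neg] at this; linarith
    have key : ∀ e : ℝ, |e| ≤ ε → m ≤ A (-τ j - e) ∧ |A' (-τ j - e)| ≤ M ∧
        ∃ X Y : ℝ, 0 < Y ∧ |X - h * e * A (-τ j - e) ^ 2| ≤ 8 * (δ * h * M ^ 3) ∧
          A (-τ j - e) * (ρ (j + 1) * A (-τ (j + 1) - e) + g (j + 1) * A' (-τ (j + 1) - e)) =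
            g j * X + (ρ j * A (-τ j - e) + g j * A' (-τ j - e)) * Y := by
      intro e he
      have he' := (abs_le.1 he).2
      have s1 := ab _ e r1 he
      have s2 := ab _ e r3 he
      have es : -τ (j + 1) - e = -τ j - e - h := by rw [hτ]; ring
      have b1 := hbd _ (s1.trans (le_add_of_nonneg_right zero_le_one))
      have b2 := hbd _ (s2.trans (le_add_of_nonneg_right zero_le_one))
      have l1 := hlo _ (by linarith) s1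
      have l2 := hlo _ (by linarith) s2
      obtain ⟨d1, d2, e1, e2⟩ := hst _ s1
      rw [es] at b2 l2 ⊢
      refine ⟨l1, b1.2, _, _, (wr_Y hh hh1 hδ hm l2 b2.2 c1 c2 hs).1,
        wr_X hM hh hδ0 b1.1 b1.2 b2.1 b2.2 hτM c1 c2 c3 d1 d2 e1 e2, ?_⟩
      rw [hg j hj, hρ j hj]
      exact wr_id ..
    have gain : ∀ B : ℝ, m ≤ B → 8 * (δ * h * M ^ 3) ≤ h * ε * B ^ 2 := fun B hB => by
      have k1 : ε * m ^ 2 ≤ ε * B ^ 2 := by gcongr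
      have k2 := mul_le_mul_of_nonneg_left (hδε.trans k1) hh
      linarith
    obtain ⟨l1, b1, X, Y, hY, hX, hid⟩ := key ε (abs_of_nonneg hε).le
    obtain ⟨l2, -, X', Y', hY', hX', hid'⟩ := key (-ε) (by rw [abs_neg, abs_of_nonneg hε])
    refine ⟨?_, ?_, ?_⟩
    · have hκ : 0 ≤ h * κ j := mul_nonneg hh (by linarith [(abs_le.1 c2).1])
      have p1 := mul_pos i1 (wr_Y hh hh1 hδ hm l1 b1 c1 c2 hs).2
      have p2 := mul_nonneg hκ i2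
      have p3 : 0 < A (-τ j - ε) * g (j + 1) := by rw [hg j hj]; linarith
      exact (mul_pos_iff_of_pos_left (hm.trans_le l1)).1 p3
    · have hX0 : 0 ≤ X := by linarith [(abs_le.1 hX).1, gain _ l1]
      have p := add_nonneg (mul_nonneg i1.le hX0) (mul_nonneg i2 hY.le)
      rw [← hid] at p
      exact (mul_nonneg_iff_of_pos_left (hm.trans_le l1)).1 p
    · have hX0 : X' ≤ 0 := by linarith [(abs_le.1 hX').2, gain _ l2]
      have p := add_nonpos (mul_nonpos_of_nonneg_of_nonpos i1.le hX0)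
        (mul_nonpos_of_nonpos_of_nonneg i3 hY'.le)
      rw [← hid'] at p
      by_contra hc
      exact absurd p (not_le.2 (mul_pos (hm.trans_le l2) (not_le.1 hc)))

end Pool.Agent.Lib.MP_f387d3_mp.AI
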