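import Mathlib
import Pool.Agent.Lib.MP_f387d3_mp.AI.Son
import Pool.Agent.Lib.MP_f387d3_mp.AI.Forb
import Pool.Agent.Lib.MP_f387d3_mp.AI.Wr
import Pool.Agent.Lib.MP_f387d3_mp.AI.Bounds

/-!
Pieces for the location of the maximum: start of the comparison, growth to the right of the
peak, the drop after the peak.
-/

namespace Pool.Agent.Lib.MP_f387d3_mp.AI

open Pool.Agent.Lib.MP_f387d3_mp Filter Topology

theorem right_lt {n b : ℕ} (h : 2 * (b + 1) < n) (h0 : 0 ≤ gg n b) (h1 : gg n b < gg n (b + 1))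
    (h2 : gg n (b + 1) < gg n (b + 1 + 1)) : PP n b < PP n (b + 1) := by
  have h' : 2 * ((b : ℝ) + 1) < n := by exact_mod_cast h
  have hb : (0 : ℝ) ≤ b := Nat.cast_nonneg b
  have key : ∀ j : ℕ, 0 < (n : ℝ) - 2 * j → PP n j = gg n j ^ 2 +
      (((n : ℝ) - j) / (n - 2 * j) * (gg n j + gg n (j + 1))) ^ 2 := fun j hj => by
    refine mul_left_cancel₀ (pow_pos hj 2).ne' ?_
    rw [PP_gg]; field_simp
  rw [key b (by linarith), key (b + 1) (by push_cast; linarith)]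
  push_cast
  have k : ((n : ℝ) - b) / (n - 2 * b) ≤ ((n : ℝ) - (b + 1)) / (n - 2 * (b + 1)) := by
    rw [div_le_div_iff₀ (by linarith) (by linarith)]
    linarith
  have k0 : 0 ≤ ((n : ℝ) - b) / (n - 2 * b) := div_nonneg (by linarith) (by linarith)
  exact add_lt_add_of_lt_of_le (pow_lt_pow_left₀ h1 h0 two_ne_zero)
    (pow_le_pow_left₀ (mul_nonneg k0 (by linarith))
      (mul_le_mul k (by linarith) (by linarith) (k0.trans k)) 2)

theorem exists_turn {r : ℕ → ℝ} {i k : ℕ} (hik : i ≤ k) (hi : 0 < r i) (hk : r k ≤ 0) :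
    ∃ c, i ≤ c ∧ c < k ∧ 0 < r c ∧ r (c + 1) ≤ 0 := by
  induction k, hik using Nat.le_induction with
  | base => exact absurd hi (not_lt.2 hk)
  | succ k hik ih =>
    rcases le_or_gt (r k) 0 with h | h
    · obtain ⟨c, h1, h2, h3⟩ := ih h
      exact ⟨c, h1, by omega, h3⟩
    · exact ⟨k, hik, by omega, h, hk⟩

theorem yy_near {n : ℕ} {l R : ℝ} (hl : 2 ≤ l) (hn : (n : ℝ) ^ 2 = 32 * l ^ 6) {b : ℕ}
    (h0 : 0 < tt n l b) (h1 : tt n l b ≤ R) (hR : R ≤ l ^ 2 / 10) :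
    0 < yy n b ∧ yy n b ≤ 16 * l ^ 4 * R := by
  have hl0 : 0 < l := by linarith
  have k0 := mul_pos hl0 h0
  have k1 := mul_le_mul_of_nonneg_left h1 hl0.le
  have k2 := mul_le_mul_of_nonneg_left hR hl0.le
  have h3 := pow_pos hl0 3
  rw [yy_eq hl0 hn]
  refine ⟨mul_pos (by linarith) (by linarith), ?_⟩
  have : l * tt n l b * (8 * l ^ 3 - l * tt n l b) ≤ l * R * (8 * l ^ 3) :=
    mul_le_mul k1 (by linarith) (by linarith) (by linarith)
  linarith

theorem drop_step {n : ℕ} {l R β : ℝ} (hl : 2 ≤ l) (hn : (n : ℝ) ^ 2 = 32 * l ^ 6) {b : ℕ}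
    (h0 : 0 < tt n l b) (h1 : tt n l (b + 1) ≤ R) (hR : R ≤ l ^ 2 / 10) (hβ : 0 < β)
    (hg : 0 ≤ gg n (b + 1)) (hr : rr n (b + 1) / (2 * l ^ 2) ≤ -(β * gg n (b + 1))) :
    (1 + β ^ 2 / (R * (β ^ 2 + R)) / l) * SS n (b + 1) ≤ SS n b := by
  have hl0 : 0 < l := by linarith
  have hm := tt_mono n hl0 (Nat.le_succ b)
  have hR0 : 0 < R := by linarith
  obtain ⟨y0, y1⟩ := yy_near hl hn h0 (hm.trans h1) hR
  obtain ⟨y2, y3⟩ := yy_near hl hn (h0.trans_le hm) h1 hR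
  obtain ⟨a1, a2, -, a4⟩ := near hl hn (b := b) (by rw [abs_of_pos h0]; linarith)
  rw [SS_drop a1 (by omega) y0, add_mul, one_mul]
  refine add_le_add le_rfl ?_
  rw [div_le_iff₀ (by positivity)] at hr
  have r1 : (β * gg n (b + 1) * (2 * l ^ 2)) ^ 2 ≤ rr n (b + 1) ^ 2 := by
    rw [← neg_sq (rr n (b + 1))]
    exact pow_le_pow_left₀ (by positivity) (by linarith) 2
  have r2 : β ^ 2 * QQ n (b + 1) ≤ (β ^ 2 + R) * rr n (b + 1) ^ 2 := by
    have k1 := mul_le_mul_of_nonneg_right y3 (mul_nonneg (sq_nonneg β) (sq_nonneg (gg n (b + 1))))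
    have k2 := mul_le_mul_of_nonneg_left r1 hR0.le
    unfold QQ
    linarith
  have r3 : β ^ 2 / (R * (β ^ 2 + R)) / l * QQ n (b + 1) ≤ rr n (b + 1) ^ 2 / (R * l) := by
    rw [div_div, div_mul_eq_mul_div, div_le_div_iff₀ (by positivity) (by positivity)]
    have := mul_le_mul_of_nonneg_right r2 (mul_pos hR0 hl0).le
    linarith
  have r4 : rr n (b + 1) ^ 2 / (R * l) ≤
      8 * ((n : ℝ) - 2 * b - 1) * rr n (b + 1) ^ 2 / yy n b := by
    rw [div_le_div_iff₀ (by positivity) y0]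
    have k1 := mul_le_mul_of_nonneg_left y1 (sq_nonneg (rr n (b + 1)))
    have k2 := mul_le_mul_of_nonneg_right a4
      (mul_nonneg (sq_nonneg (rr n (b + 1))) (mul_pos hR0 hl0).le)
    have k3 : 0 ≤ rr n (b + 1) ^ 2 * (l ^ 4 * R) := by positivity
    linarith
  unfold SS
  rw [← mul_div_assoc, ← div_div _ (yy n b)]
  exact div_le_div_of_nonneg_right (r3.trans r4) y2.le

theorem drop_sum {S : ℕ → ℝ} {ν : ℝ} (hν : 0 ≤ ν) (J : ℕ) (h0 : ∀ j ≤ J, 0 ≤ S j)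
    (h : ∀ j < J, (1 + ν) * S (j + 1) ≤ S j) : (1 + J * ν) * S J ≤ S 0 := by
  induction J with
  | zero => simp
  | succ J ih =>
    have k := ih (fun j hj => h0 j (by omega)) (fun j hj => h j (by omega))
    have hJ : 0 ≤ (J : ℝ) * ν := by positivity
    have k1 := mul_le_mul_of_nonneg_left (h J (by omega)) (show 0 ≤ 1 + (J : ℝ) * ν by linarith)
    have k2 := mul_nonneg (mul_nonneg hJ hν) (h0 (J + 1) le_rfl)
    push_cast
    linarith

/-- the comparison starts deep in the region to the right of the turning point -/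
theorem start {A A' : ℝ → ℝ} (h1 : ∀ s, HasDerivAt A (A' s) s)
    (h2 : ∀ s, HasDerivAt A' (s * A s) s) (h3 : Tendsto A atTop (𝓝 0))
    (h4 : ∀ s, 0 ≤ s → 0 < A s) {n : ℕ} {l ε W : ℝ} (hε : 0 < ε) (hε1 : ε ≤ 1) (hW : ε * W = 6)
    (hl : 2 * W ≤ l) (hl2 : W ^ 4 ≤ ε * l ^ 2) (hn : (n : ℝ) ^ 2 = 32 * l ^ 6) {j : ℕ}
    (hj : tt n l j ≤ -W ^ 2) (hj' : -W ^ 2 < tt n l (j + 1)) :
    0 < gg n (j + 1) ∧
      0 ≤ rr n (j + 1) / (2 * l ^ 2) * A (-tt n l (j + 1) - ε) +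
        gg n (j + 1) * A' (-tt n l (j + 1) - ε) ∧
      rr n (j + 1) / (2 * l ^ 2) * A (-tt n l (j + 1) - -ε) +
        gg n (j + 1) * A' (-tt n l (j + 1) - -ε) ≤ 0 := by
  have hW6 : 6 ≤ W := by
    by_contra h
    have := mul_lt_mul_of_pos_left (not_le.1 h) hε
    linarith
  have hl0 : 0 < l := by linarith
  have hW2 : 6 ^ 2 ≤ W ^ 2 := pow_le_pow_left₀ (by norm_num) hW6 2
  obtain ⟨i1, i2, i3, -⟩ := forb (by linarith) hn j (by linarith)
  have i4 := forb_up (by linarith) hl hn j hj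
  have hh : 2 / l ≤ 1 := by rw [div_le_one hl0]; linarith
  have ht := tt_succ n l j
  obtain ⟨t, htt⟩ : ∃ t, t = -tt n l (j + 1) := ⟨_, rfl⟩
  have t1 : W ^ 2 - 1 ≤ t := by linarith
  have t2 : t ≤ W ^ 2 := by linarith
  have hy : yy n (j + 1) = -(2 * (l * t) * (8 * l ^ 3 + l * t)) := by
    rw [yy_eq hl0 hn, htt]; ring
  obtain ⟨ρ, hρ⟩ : ∃ ρ, ρ = rr n (j + 1) / (2 * l ^ 2) := ⟨_, rfl⟩
  have hρ0 : 0 < ρ := by rw [hρ]; positivity
  have hr : rr n (j + 1) = 2 * l ^ 2 * ρ := by rw [hρ]; field_simp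
  rw [← htt, ← hρ]
  unfold QQ at i3 i4
  rw [hy, hr] at i3 i4
  have hl4 : 0 < 4 * l ^ 4 := by positivity
  have g2 := sq_nonneg (gg n (j + 1))
  have lo : t * gg n (j + 1) ^ 2 ≤ ρ ^ 2 := by
    refine le_of_mul_le_mul_left ?_ hl4
    have := mul_nonneg (sq_nonneg (l * t)) g2
    linarith
  have hi : ρ ^ 2 ≤ (t + ε) * gg n (j + 1) ^ 2 := by
    refine le_of_mul_le_mul_left ?_ hl4
    have k1 : t ^ 2 ≤ (W ^ 2) ^ 2 := pow_le_pow_left₀ (by linarith) t2 2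
    have k2 : t ^ 2 ≤ ε * l ^ 2 := by linarith
    have k3 := mul_le_mul_of_nonneg_right k2 (mul_nonneg (sq_nonneg l) g2)
    have k4 := mul_le_mul_of_nonneg_left i4 hε.le
    rw [← mul_assoc, hW] at k4
    have k5 : 0 ≤ ε * (l ^ 4 * gg n (j + 1) ^ 2) := by positivity
    linarith
  refine ⟨i1, ?_, ?_⟩
  · have s0 : 0 < t - ε := by linarith
    obtain ⟨-, -, b3⟩ := airy_bounds h1 h2 h3 h4 _ s0
    have hA := h4 _ s0.le
    have q : 1 / (2 * Real.sqrt (t - ε)) ≤ ε := by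
      have : W / 2 ≤ Real.sqrt (t - ε) := Real.le_sqrt_of_sq_le (by linarith)
      rw [div_le_iff₀ (by linarith)]
      have := mul_le_mul_of_nonneg_left this hε.le
      linarith
    have q1 : A' (t - ε) ^ 2 ≤ t * A (t - ε) ^ 2 :=
      b3.trans (mul_le_mul_of_nonneg_right (by linarith) (sq_nonneg _))
    have q2 : -(gg n (j + 1) * A' (t - ε)) ≤ ρ * A (t - ε) := by
      refine le_of_pow_le_pow_left₀ two_ne_zero (by positivity) ?_
      have k1 := mul_le_mul_of_nonneg_left q1 g2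
      have k2 := mul_le_mul_of_nonneg_right lo (sq_nonneg (A (t - ε)))
      linarith
    linarith
  · rw [sub_neg_eq_add]
    have s0 : 0 < t + ε := by linarith
    obtain ⟨b1, b2, -⟩ := airy_bounds h1 h2 h3 h4 _ s0
    have q2 : ρ * A (t + ε) ≤ -(gg n (j + 1) * A' (t + ε)) := by
      refine le_of_pow_le_pow_left₀ two_ne_zero
        (neg_nonneg.2 (mul_nonpos_of_nonneg_of_nonpos i1.le b1.le)) ?_
      have k1 := mul_le_mul_of_nonneg_left b2 g2
      have k2 := mul_le_mul_of_nonneg_right hi (sq_nonneg (A (t + ε)))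
      linarith
    linarith

theorem exists_pos_min {f : ℝ → ℝ} (hf : Continuous f) {a b : ℝ}
    (h : ∀ s, a ≤ s → s ≤ b → 0 < f s) : ∃ m, 0 < m ∧ ∀ s, a ≤ s → s ≤ b → m ≤ f s := by
  rcases le_or_gt a b with hab | hab
  · obtain ⟨x, hx, hm⟩ := (isCompact_Icc (a := a) (b := b)).exists_isMinOn
      (Set.nonempty_Icc.2 hab) hf.continuousOn
    exact ⟨f x, h x hx.1 hx.2, fun s h1 h2 => hm ⟨h1, h2⟩⟩
  · exact ⟨1, one_pos, fun s h1 h2 => absurd (h1.trans h2) (not_le.2 hab)⟩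

end Pool.Agent.Lib.MP_f387d3_mp.AI
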