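import Mathlib
import Pool.Agent.Lib.MP_f387d3_mp.AI.Loc
import Pool.Agent.Lib.MP_f387d3_mp.AI.Decay

/-!
The discrete Wronskian with the unshifted solution of the Airy equation is of the order of one
lattice step.
-/

namespace Pool.Agent.Lib.MP_f387d3_mp.AI

open Pool.Agent.Lib.MP_f387d3_mp Filter Topology

theorem wr_diff {g ρ η κ κ' τ h B C Bp Cp S N K G : ℝ} (hS : 1 ≤ S) (hh : 0 ≤ h)
    (hg : |g| ≤ G) (hρ : |ρ| ≤ K * S * G) (hτ : |τ| ≤ S) (hBp : |Bp| ≤ N) (hCp : |Cp| ≤ N)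
    (hη : |η| ≤ h ^ 2 * S) (hκ : |κ - 1| ≤ h * S) (hκ' : |κ' - 1| ≤ h * S)
    (d1 : |Bp - B| ≤ h * N) (d2 : |Cp - C| ≤ h * (S * N)) (e1 : |Bp - B + h * C| ≤ h ^ 2 * (S * N))
    (e2 : |Cp - C + h * (-τ * B)| ≤ 2 * h ^ 2 * (S * N)) :
    |((1 - η) * ρ - h * κ' * τ * g) * Bp + ((1 - η) * g + h * κ * ρ) * Cp - (ρ * B + g * C)| ≤
      (4 * K + 5) * (h ^ 2 * (S ^ 2 * N) * G) := by
  have id : ((1 - η) * ρ - h * κ' * τ * g) * Bp + ((1 - η) * g + h * κ * ρ) * Cp - (ρ * B + g * C)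
      = ρ * (Bp - B + h * C) - ρ * (η * Bp) + ρ * (h * ((κ - 1) * Cp)) + ρ * (h * (Cp - C))
        + g * (Cp - C + h * (-τ * B)) - g * (η * Cp) - g * (h * ((κ' - 1) * (τ * Bp)))
        - g * (h * (τ * (Bp - B))) := by ring
  have hh' : |h| ≤ h := (abs_of_nonneg hh).le
  have t1 := abs_le.1 (am hρ e1)
  have t2 := abs_le.1 (am hρ (am hη hBp))
  have t3 := abs_le.1 (am hρ (am hh' (am hκ hCp)))
  have t4 := abs_le.1 (am hρ (am hh' d2))
  have t5 := abs_le.1 (am hg e2)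
  have t6 := abs_le.1 (am hg (am hη hCp))
  have t7 := abs_le.1 (am hg (am hh' (am hκ' (am hτ hBp))))
  have t8 := abs_le.1 (am hg (am hh' (am hτ d1)))
  have p : 0 ≤ h ^ 2 * N * G :=
    mul_nonneg (mul_nonneg (sq_nonneg h) ((abs_nonneg _).trans hBp)) ((abs_nonneg _).trans hg)
  have m1 : S ^ 1 ≤ S ^ 2 := pow_le_pow_right₀ hS (by norm_num)
  have q1 := mul_le_mul_of_nonneg_left m1 p
  rw [id, abs_le]
  constructor <;> linarith [t1.1, t1.2, t2.1, t2.2, t3.1, t3.2, t4.1, t4.2, t5.1, t5.2, t6.1,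
    t6.2, t7.1, t7.2, t8.1, t8.2]

theorem rho_deep {n : ℕ} {l : ℝ} (hl : 10 ≤ l) (hn : (n : ℝ) ^ 2 = 32 * l ^ 6) {i : ℕ}
    (h1 : -l ≤ tt n l (i + 1)) (h2 : tt n l (i + 1) ≤ -1) :
    |rr n (i + 1) / (2 * l ^ 2)| ≤ 3 * (|tt n l (i + 1)| + 1) * gg n (i + 1) := by
  have hl0 : 0 < l := by linarith
  have hm := tt_mono n hl0 (Nat.le_succ i)
  obtain ⟨i1, i2, -, -⟩ := forb (by linarith) hn i (by linarith)
  have i4 := forb_up (W := 1) le_rfl (by linarith) hn i (by linarith)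
  obtain ⟨t, htt⟩ : ∃ t, t = -tt n l (i + 1) := ⟨_, rfl⟩
  have hy : yy n (i + 1) = -(2 * (l * t) * (8 * l ^ 3 + l * t)) := by
    rw [yy_eq hl0 hn, htt]; ring
  rw [abs_of_pos (by positivity), abs_of_neg (by linarith), ← htt, div_le_iff₀ (by positivity)]
  have t0 : 1 ≤ t := by linarith
  have t1 : l * t ≤ l ^ 3 := by
    have k1 : t ≤ l ^ 2 := by nlinarith
    have := mul_le_mul_of_nonneg_left k1 hl0.le
    linarith
  refine le_of_pow_le_pow_left₀ two_ne_zero (by positivity) ?_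
  unfold QQ at i4
  rw [hy] at i4
  have g2 := sq_nonneg (gg n (i + 1))
  have k1 := mul_le_mul_of_nonneg_right t1
    (show 0 ≤ l * t * gg n (i + 1) ^ 2 by positivity)
  have k2 : 0 ≤ l ^ 4 * gg n (i + 1) ^ 2 := by positivity
  have k3 : 0 ≤ l ^ 4 * t * gg n (i + 1) ^ 2 := by positivity
  have k4 : 0 ≤ l ^ 4 * t ^ 2 * gg n (i + 1) ^ 2 := by positivity
  linarith

theorem omega_bound {A A' : ℝ → ℝ} (h1 : ∀ s, HasDerivAt A (A' s) s)
    (h2 : ∀ s, HasDerivAt A' (s * A s) s) (h3 : Tendsto A atTop (𝓝 0))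
    (h4 : ∀ s, 0 ≤ s → 0 < A s) {R K₀ : ℝ} (hR : 0 ≤ R) (hK₀ : 0 ≤ K₀) :
    ∃ C : ℝ, 0 ≤ C ∧ ∀ (l : ℝ) (n : ℕ) (G : ℝ), 10 ≤ l → R ≤ l → (n : ℝ) ^ 2 = 32 * l ^ 6 →
      (∀ i, -1 ≤ tt n l i → tt n l i ≤ R → |rr n i / (2 * l ^ 2)| ≤ K₀ * gg n i) →
      (∀ j, |gg n j| ≤ G) → ∀ i, -1 ≤ tt n l i → tt n l i ≤ R →
        |rr n i / (2 * l ^ 2) * A (-tt n l i) + gg n i * A' (-tt n l i)| ≤ C * (2 / l * G) := by
  obtain ⟨K, hK, hst⟩ := airy_step_two h1 h2 h3 h4 hR
  refine ⟨(K₀ + 4) * K + 2 * ((4 * (K₀ + 3) + 5) * K) * Real.exp (R / 2), by positivity, ?_⟩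
  intro l n G hl hRl hn hρ hG i hi hi'
  have hl0 : 0 < l := by linarith
  have hl2 : 0 < l ^ 2 := by positivity
  have hll : 10 * l ≤ l ^ 2 := by nlinarith
  have hh : 0 < 2 / l := by positivity
  have hh1 : 2 / l ≤ 1 := by rw [div_le_one hl0]; linarith
  have hG0 : 0 ≤ G := (abs_nonneg _).trans (hG 0)
  have g7 : tt n l 0 ≤ -l := by
    unfold tt
    rw [div_le_iff₀ hl0]
    have k1 := (n_bounds hl0 hn).1
    have k2 := mul_le_mul_of_nonneg_right (show l ≤ l ^ 2 by linarith) hl0.le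
    have k3 := pow_pos hl0 3
    push_cast
    linarith
  obtain ⟨j, -, a2, a3⟩ := exists_index n hl0 g7
  have hj : j + 1 ≤ i := by
    by_contra h
    have := tt_mono n hl0 (show i ≤ j by omega)
    linarith
  have hρ' : ∀ k, j + 1 ≤ k → tt n l k ≤ R →
      |rr n k / (2 * l ^ 2)| ≤ (K₀ + 3) * (|-tt n l k| + 1) * G := by
    intro k hk hkR
    have u0 := abs_nonneg (tt n l k)
    have u1 := (le_abs_self _).trans (hG k)
    rw [abs_neg]
    rcases le_total (-1) (tt n l k) with h | h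
    · refine (hρ k h hkR).trans ((mul_le_mul_of_nonneg_left u1 hK₀).trans ?_)
      exact mul_le_mul_of_nonneg_right
        (le_trans (by linarith) (le_mul_of_one_le_right (by linarith) (by linarith))) hG0
    · obtain ⟨k, rfl⟩ : ∃ k', k = k' + 1 := ⟨k - 1, by omega⟩
      refine (rho_deep hl hn (a3.le.trans (tt_mono n hl0 hk)) h).trans ?_
      exact mul_le_mul (mul_le_mul_of_nonneg_right (by linarith) (by linarith)) u1
        (forb (by linarith) hn k (by linarith [tt_mono n hl0 (Nat.le_succ k)])).1.le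
        (by positivity)
  have main : ∀ k, j + 1 ≤ k → tt n l k ≤ R →
      |rr n k / (2 * l ^ 2) * A (-tt n l k) + gg n k * A' (-tt n l k)| ≤
        (K₀ + 4) * K * (2 / l * G) +
          2 * ((4 * (K₀ + 3) + 5) * K) * Real.exp (tt n l k / 2) * (2 / l * G) := by
    intro k hk
    induction k, hk using Nat.le_induction with
    | base =>
      intro hkR
      obtain ⟨N, b0, b1, b2, -⟩ := hst (-tt n l (j + 1)) 0 (by linarith) le_rfl zero_le_one
      have t1 := am (hρ' _ le_rfl hkR) b1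
      have t2 := am (hG (j + 1)) b2
      have hN : 0 ≤ N := (abs_nonneg _).trans b1
      obtain ⟨S, hS⟩ : ∃ S, S = |-tt n l (j + 1)| + 1 := ⟨_, rfl⟩
      have hS1 : 1 ≤ S := by rw [hS]; linarith [abs_nonneg (-tt n l (j + 1))]
      rw [← hS] at b0 t1
      have e1 : Real.exp (- -tt n l (j + 1) / 2) ≤ 2 / l := by
        have ej := tt_succ n l j
        have k1 := Real.add_one_le_exp (-tt n l (j + 1) / 2)
        rw [neg_div, Real.exp_neg, ← one_div, div_le_div_iff₀ (Real.exp_pos _) hl0]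
        linarith
      have e2 : S ^ 2 * N ≤ K * (2 / l) := b0.trans (mul_le_mul_of_nonneg_left e1 hK)
      have e3 : S ^ 1 * N ≤ S ^ 2 * N :=
        mul_le_mul_of_nonneg_right (pow_le_pow_right₀ hS1 (by norm_num)) hN
      have e4 : 1 * N ≤ S ^ 2 * N := mul_le_mul_of_nonneg_right (one_le_pow₀ hS1) hN
      have e5 := mul_le_mul_of_nonneg_left (e3.trans e2)
        (mul_nonneg (show 0 ≤ K₀ + 3 by linarith) hG0)
      have e6 := mul_le_mul_of_nonneg_left (e4.trans e2) hG0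
      have e7 : 0 ≤ 2 * ((4 * (K₀ + 3) + 5) * K) * Real.exp (tt n l (j + 1) / 2) * (2 / l * G) := by
        positivity
      refine (abs_add_le _ _).trans ?_
      linarith
    | succ k hk ih =>
      intro hkR
      have hm := tt_mono n hl0 (Nat.le_succ k)
      have ih := ih (hm.trans hkR)
      have u1 : |tt n l k| ≤ l := abs_le.2 ⟨a3.le.trans (tt_mono n hl0 hk), by linarith⟩
      obtain ⟨η, κ, κ', ⟨v1, v2, v3⟩, v4, v5⟩ := coef (by linarith) hn (b := k) (R := |tt n l k|)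
        le_rfl (by linarith)
      obtain ⟨N, b0, -, -, b3, b4, b5, b6, b7, b8⟩ := hst (-tt n l k) (2 / l) (by linarith) hh.le hh1
      have u0 := abs_nonneg (tt n l k)
      have w0 : |tt n l k| / l ^ 2 = (2 / l) ^ 2 * |tt n l k| / 4 := by field_simp; ring
      have w1 : 0 ≤ (2 / l) ^ 2 * |tt n l k| := by positivity
      have w2 : (2 / l) ^ 2 * |tt n l k| ≤ 2 / l * |tt n l k| :=
        mul_le_mul_of_nonneg_right (by nlinarith) u0
      have w3 := sq_nonneg (2 / l)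
      have d := wr_diff (S := |-tt n l k| + 1) (τ := tt n l k) (η := η) (κ := κ) (κ' := κ')
        (by linarith [abs_nonneg (-tt n l k)]) hh.le (hG k)
        (hρ' k hk (hm.trans hkR)) (by rw [abs_neg]; linarith) b3 b4
        (by rw [abs_neg]; linarith) (by rw [abs_neg]; linarith) (by rw [abs_neg]; linarith)
        b5 b6 b7 b8
      have es : -tt n l (k + 1) = -tt n l k - 2 / l := by rw [tt_succ]; ring
      rw [← v4, ← v5, ← es] at d
      rw [neg_neg] at b0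
      have x1 : (1 + 1 / l) * Real.exp (tt n l k / 2) ≤ Real.exp (tt n l (k + 1) / 2) := by
        have : tt n l (k + 1) / 2 = 1 / l + tt n l k / 2 := by rw [tt_succ]; ring
        rw [this, Real.exp_add]
        exact mul_le_mul_of_nonneg_right (by linarith [Real.add_one_le_exp (1 / l)])
          (Real.exp_pos _).le
      have x2 := mul_le_mul_of_nonneg_left x1
        (show 0 ≤ 2 * ((4 * (K₀ + 3) + 5) * K) * (2 / l * G) by positivity)
      have x3 := mul_le_mul_of_nonneg_left b0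
        (show 0 ≤ (4 * (K₀ + 3) + 5) * ((2 / l) ^ 2 * G) by positivity)
      have x4 := abs_le.1 d
      have x5 := abs_le.1 ih
      have x6 : 1 / l = 2 / l / 2 := by ring
      rw [x6] at x2
      rw [abs_le]
      constructor <;> linarith [x4.1, x4.2, x5.1, x5.2]
  refine (main i hj hi').trans ?_
  have : Real.exp (tt n l i / 2) ≤ Real.exp (R / 2) := Real.exp_le_exp.2 (by linarith)
  have := mul_le_mul_of_nonneg_left this
    (show 0 ≤ 2 * ((4 * (K₀ + 3) + 5) * K) * (2 / l * G) by positivity)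
  linarith

end Pool.Agent.Lib.MP_f387d3_mp.AI
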