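import Mathlib
import Pool.Agent.Lib.MP_f387d3_mp.AI.Loc

/-!
Every maximiser lies, in the scale of the peak, near the first critical point of the decaying
solution of the Airy equation.
-/

namespace Pool.Agent.Lib.MP_f387d3_mp.AI

open Pool.Agent.Lib.MP_f387d3_mp Filter Topology

/-- the discrete part of the argument, with the two conclusions of the comparison as hypotheses -/
theorem locate_core {n : ℕ} {l c ε R β : ℝ} {b₀ : ℕ} (hl : 4 ≤ l)
    (hn : (n : ℝ) ^ 2 = 32 * l ^ 6) (hε : 0 < ε) (hεc : 4 * ε ≤ c) (hcR : c + 4 * ε ≤ R)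
    (hR : 30 * R ≤ l ^ 2) (hh : 2 / l ≤ ε / 2) (hβ : 0 < β)
    (hθ : 1 < (1 + ε * (β ^ 2 / (R * (β ^ 2 + R))) / 4) * (1 - 3 * R / l ^ 2) ^ 3)
    (hb₀ : tt n l b₀ ≤ 0)
    (ha : ∀ i, b₀ ≤ i → tt n l i ≤ c - 2 * ε → 0 < rr n i ∧ gg n i < gg n (i + 1))
    (hg : ∀ i, b₀ ≤ i → tt n l i ≤ c + 4 * ε → 0 < gg n i)
    (hb : ∀ i, c + 2 * ε ≤ tt n l i → tt n l i ≤ c + 4 * ε →
      rr n i / (2 * l ^ 2) ≤ -(β * gg n i))
    (b : ℕ) (hmax : ∀ j, PP n j ≤ PP n b) : |tt n l b - c| ≤ 3 * ε := by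
  have hl0 : 0 < l := by linarith
  have hl2 : 0 < l ^ 2 := pow_pos hl0 2
  have hR0 : 0 < R := by linarith
  have hR' : R ≤ l ^ 2 / 10 := by linarith
  have lt_of : ∀ i j, tt n l i < tt n l j → i < j := fun i j h => by
    by_contra hc
    exact absurd (tt_mono n hl0 (not_lt.1 hc)) (not_le.2 h)
  have h3 : 4 ^ 3 ≤ l ^ 3 := pow_le_pow_left₀ (by norm_num) hl 3
  have hn200 : 200 ≤ n := by
    exact_mod_cast (show (200 : ℝ) ≤ n by linarith [(n_bounds hl0 hn).1])
  rw [abs_le]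
  constructor
  · by_contra hc
    have hb1 : tt n l (b + 1) ≤ c - 2 * ε := by rw [tt_succ]; linarith [not_le.1 hc]
    have up : ∀ i, tt n l i ≤ c - 2 * ε → gg n i < gg n (i + 1) := fun i hi => by
      rcases le_total b₀ i with h | h
      · exact (ha i h hi).2
      · exact (forb (by linarith) hn i ((tt_mono n hl0 h).trans hb₀)).2.2.2
    have nn : ∀ i, tt n l i ≤ c - 2 * ε → 0 ≤ gg n i := fun i => by
      induction i with
      | zero => exact fun _ => (gg_zero n).ge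
      | succ i ih =>
        intro hi
        have hi' := (tt_mono n hl0 (Nat.le_succ i)).trans hi
        exact (ih hi').trans (up i hi').le
    have hb0 := (tt_mono n hl0 (Nat.le_succ b)).trans hb1
    have hD := D_eq n hl0 (b + 1)
    have k1 := mul_le_mul_of_nonneg_left (show tt n l (b + 1) ≤ l ^ 2 / 10 by linarith) hl0.le
    have k2 : 2 * (b + 1) < n := by
      have : 2 * ((b + 1 : ℕ) : ℝ) < n := by linarith
      exact_mod_cast this
    exact absurd (hmax (b + 1)) (not_le.2 (right_lt k2 (nn b hb0) (up b hb0) (up _ hb1)))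
  · by_contra hc
    have hc' : c + 3 * ε < tt n l b := by linarith [not_le.1 hc]
    obtain ⟨j1, a1, a2, a3⟩ := exists_index n hl0 (L := c - 2 * ε) (b := b₀) (by linarith)
    obtain ⟨j2, b1, b2, b3⟩ := exists_index n hl0 (L := c + 2 * ε) (b := j1) (by linarith)
    obtain ⟨j3, c1, c2, c3⟩ := exists_index n hl0 (L := c + 3 * ε) (b := j2) (by linarith)
    have e1 := tt_succ n l j1
    have e2 := tt_succ n l j2
    have e3 := tt_succ n l j3
    have hr2 : rr n (j2 + 1) ≤ 0 := by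
      have k := hb (j2 + 1) b3.le (by linarith)
      have k1 := mul_pos hβ (hg (j2 + 1) (by omega) (by linarith))
      rw [div_le_iff₀ (by positivity)] at k
      have := mul_pos k1 (show 0 < 2 * l ^ 2 by positivity)
      linarith
    obtain ⟨k, k1, k2, k3, k4⟩ := exists_turn (r := rr n) (show j1 ≤ j2 + 1 by omega)
      (ha j1 a1 a2).1 hr2
    have t1 := tt_mono n hl0 k1
    have t2 := tt_mono n hl0 (show k ≤ j2 by omega)
    have t0 : 0 < tt n l k := by linarith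
    obtain ⟨y0, y1⟩ := yy_near (by linarith) hn t0 (show tt n l k ≤ R by linarith) hR'
    obtain ⟨n1, n2, n3, -⟩ := near (by linarith) hn (b := k) (by rw [abs_of_pos t0]; linarith)
    have hgk := hg k (by omega) (by linarith)
    have hω : 3 * R / l ^ 2 ≤ 1 / 10 := by rw [div_le_iff₀ hl2]; linarith
    have hω0 : 0 ≤ 3 * R / l ^ 2 := by positivity
    have hω1 : yy n k ≤ 2 * (3 * R / l ^ 2) * (((n : ℝ) - k) * k) := by
      refine y1.trans (le_trans ?_ (mul_le_mul_of_nonneg_left n3 (by positivity)))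
      have : 2 * (3 * R / l ^ 2) * (3 * l ^ 6) = 18 * l ^ 4 * R := by field_simp; ring
      rw [this]
      have : 0 ≤ l ^ 4 * R := by positivity
      linarith
    have hbj : j3 + 1 ≤ b := lt_of _ _ (by linarith)
    rcases le_or_gt (2 * b) (n + 1) with hb2 | hb2
    · obtain ⟨J, rfl⟩ := Nat.exists_eq_add_of_le c1
      have tJ : ∀ j ≤ J, c + 2 * ε ≤ tt n l (j2 + 1 + j) ∧ tt n l (j2 + 1 + j) ≤ c + 4 * ε :=
        fun j hj => ⟨b3.le.trans (tt_mono n hl0 (by omega)),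
          (tt_mono n hl0 (show j2 + 1 + j ≤ j2 + J + 1 by omega)).trans (by linarith)⟩
      have hd := drop_sum (S := fun j => SS n (j2 + 1 + j))
        (ν := β ^ 2 / (R * (β ^ 2 + R)) / l) (by positivity) J
        (fun j hj => SS_nonneg (yy_near (by linarith) hn (by linarith [(tJ j hj).1])
          ((tJ j hj).2.trans hcR) hR').1)
        (fun j hj => drop_step (b := j2 + 1 + j) (by linarith) hn (by linarith [(tJ j hj.le).1])
          ((tJ (j + 1) hj).2.trans hcR) hR' hβ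
          (hg _ (by omega) (tJ (j + 1) hj).2).le (hb _ (tJ (j + 1) hj).1 (tJ (j + 1) hj).2))
      have hJ : ε / 4 ≤ J / l := by
        have k5 := tt_add n l (j2 + 1) J
        rw [show j2 + 1 + J = j2 + J + 1 by omega] at k5
        have k6 : (J : ℝ) * (2 / l) = 2 * (J / l) := by ring
        linarith
      have hS3 : 0 ≤ SS n (j2 + 1 + J) := SS_nonneg (yy_near (by linarith) hn
        (by linarith [(tJ J le_rfl).1]) ((tJ J le_rfl).2.trans hcR) hR').1
      have hd2 : (1 + ε * (β ^ 2 / (R * (β ^ 2 + R))) / 4) * SS n (j2 + 1 + J) ≤ SS n k := by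
        obtain ⟨-, m2, -⟩ := near (l := l) (by linarith) hn (b := j2 + 1)
          (by rw [abs_of_pos (by linarith)]; linarith)
        refine le_trans ?_ (hd.trans (SS_anti n1 y0 (by omega) (by omega)))
        refine mul_le_mul_of_nonneg_right ?_ hS3
        have k7 := mul_le_mul_of_nonneg_right hJ
          (show 0 ≤ β ^ 2 / (R * (β ^ 2 + R)) by positivity)
        have k8 : (J : ℝ) * (β ^ 2 / (R * (β ^ 2 + R)) / l) =
          J / l * (β ^ 2 / (R * (β ^ 2 + R))) := by ring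
        linarith
      exact absurd (hmax k) (not_le.2 (mid_lt y0 hgk k3 k4 n1 n2 hω hω1 hθ (by omega) hd2
        (by omega) hb2))
    · refine absurd (left_lt hmax y0 hgk k3 k4 n1 n2 hn200 (hω1.trans ?_) (b := b) (by omega))
        (lt_irrefl _)
      exact mul_le_mul_of_nonneg_right (by linarith) (ab_pos n1 (by omega)).le

theorem locate {A A' : ℝ → ℝ} {c δ₀ ε : ℝ} (h1 : ∀ s, HasDerivAt A (A' s) s)
    (h2 : ∀ s, HasDerivAt A' (s * A s) s) (h3 : Tendsto A atTop (𝓝 0))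
    (s1 : ∀ s, -c < s → A' s < 0) (s2 : ∀ s, -c - δ₀ ≤ s → 0 < A s)
    (s3 : ∀ s, -c - δ₀ ≤ s → s < -c → 0 < A' s) (hε : 0 < ε) (hε1 : ε ≤ 1) (hε3 : 5 * ε ≤ δ₀)
    (hε4 : 4 * ε ≤ c) : ∃ K : ℝ, 0 ≤ K ∧ ∀ᶠ l : ℝ in atTop, ∀ n : ℕ, (n : ℝ) ^ 2 = 32 * l ^ 6 →
      (∀ i, -1 ≤ tt n l i → tt n l i ≤ c + 4 * ε →
        0 < gg n i ∧ |rr n i / (2 * l ^ 2)| ≤ K * gg n i) ∧
      ∀ b : ℕ, (∀ j, PP n j ≤ PP n b) → |tt n l b - c| ≤ 3 * ε := by
  obtain ⟨W, hW⟩ : ∃ W, ε * W = 6 := ⟨6 / ε, by field_simp⟩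
  obtain ⟨R, hR⟩ : ∃ R, R = W ^ 2 + c + 5 := ⟨_, rfl⟩
  have hW2 := sq_nonneg W
  have hR0 : 0 < R := by linarith
  obtain ⟨M, hM, hRM, hbd, hst⟩ := airy_step h1 h2 R
  have hM0 : 0 < M := by linarith
  have cA : Continuous A := continuous_iff_continuousAt.2 fun s => (h1 s).continuousAt
  have cA' : Continuous A' := continuous_iff_continuousAt.2 fun s => (h2 s).continuousAt
  obtain ⟨m, hm, hlo⟩ := exists_pos_min cA (a := -c - δ₀) (b := R) fun s hs _ => s2 s hs
  obtain ⟨m₁, hm₁, hlo₁⟩ := exists_pos_min cA'.neg (a := -c + ε) (b := R)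
    fun s hs _ => neg_pos.2 (s1 s (by linarith))
  obtain ⟨m₂, hm₂, hlo₂⟩ := exists_pos_min cA' (a := -c - 3 * ε) (b := -c - ε)
    fun s hs hs' => s3 s (by linarith) (by linarith)
  obtain ⟨δ, hδ, hδ1, hδ2, hδ3⟩ :
      ∃ δ : ℝ, 0 < δ ∧ δ ≤ 1 / 2 ∧ 8 * (δ * M ^ 3) ≤ ε * m ^ 2 ∧ δ ≤ m₁ / M / 4 := by
    refine ⟨min (1 / 2) (min (ε * m ^ 2 / (8 * M ^ 3)) (m₁ / M / 4)), by positivity,
      min_le_left _ _, ?_, (min_le_right _ _).trans (min_le_right _ _)⟩
    have := (min_le_right (1 / 2) (min (ε * m ^ 2 / (8 * M ^ 3)) (m₁ / M / 4))).trans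
      (min_le_left _ _)
    rw [le_div_iff₀ (by positivity)] at this
    linarith
  obtain ⟨h₀, hh₀, hh₁, hst⟩ := hst δ hδ
  obtain ⟨θ, hθ⟩ : ∃ θ, θ = ε * ((m₂ / M) ^ 2 / (R * ((m₂ / M) ^ 2 + R))) / 4 := ⟨_, rfl⟩
  have hθ0 : 0 < θ := by rw [hθ]; positivity
  have lim : Tendsto (fun l : ℝ => (1 + θ) * (1 - 3 * R / l ^ 2) ^ 3) atTop
      (𝓝 ((1 + θ) * (1 - 0) ^ 3)) :=
    (((tendsto_pow_atTop two_ne_zero).const_div_atTop (3 * R)).const_sub 1).pow 3 |>.const_mul _
  refine ⟨M / m, by positivity, ?_⟩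
  filter_upwards [lim.eventually (lt_mem_nhds (show (1 : ℝ) < (1 + θ) * (1 - 0) ^ 3 by linarith)),
    eventually_ge_atTop 4, eventually_ge_atTop (30 * R), eventually_ge_atTop (4 / ε),
    eventually_ge_atTop (2 / h₀), eventually_ge_atTop (8 * M / m), eventually_ge_atTop (2 * R / δ),
    eventually_ge_atTop (2 * W), eventually_ge_atTop (W ^ 4 / ε)]
    with l L0 L1 L2 L3 L4 L5 L6 L7 L8 n hn
  have hl0 : 0 < l := by linarith
  have hll : l ≤ l ^ 2 := by nlinarith
  have hl2 : 0 < l ^ 2 := by positivity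
  have hh : 0 < 2 / l := by positivity
  rw [div_le_iff₀ hε] at L3 L8
  rw [div_le_iff₀ hh₀] at L4
  rw [div_le_iff₀ hm] at L5
  rw [div_le_iff₀ hδ] at L6
  have g1 : 2 / l ≤ ε / 2 := by rw [div_le_iff₀ hl0]; linarith
  have g2 : 2 / l ≤ h₀ := by rw [div_le_iff₀ hl0]; linarith
  have g3 : 4 * (2 / l * M) ≤ m := by
    rw [div_mul_eq_mul_div, ← mul_div_assoc, div_le_iff₀ hl0]; linarith
  have g4 : 3 * (R / l ^ 2) ≤ δ * (2 / l) := by
    rw [← mul_div_assoc, ← mul_div_assoc, div_le_div_iff₀ hl2 hl0]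
    have k1 := mul_le_mul_of_nonneg_right L6 hl0.le
    have k2 := mul_pos hδ hl2
    linarith
  have g5 : R / l ^ 2 ≤ δ := by
    rw [div_le_iff₀ hl2]
    have := mul_le_mul_of_nonneg_left hll hδ.le
    linarith
  have g6 : W ^ 4 ≤ ε * l ^ 2 := by
    have := mul_le_mul_of_nonneg_left hll hε.le
    linarith
  have g7 : tt n l 0 ≤ -W ^ 2 := by
    unfold tt
    rw [div_le_iff₀ hl0]
    have k1 := (n_bounds hl0 hn).1
    have k2 := mul_le_mul_of_nonneg_right (show W ^ 2 ≤ l ^ 2 by linarith) hl0.le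
    have k3 := pow_pos hl0 3
    push_cast
    linarith
  obtain ⟨j, -, a2, a3⟩ := exists_index n hl0 g7
  have hW1 : 2 ≤ W ^ 2 := by
    have : 6 ≤ W := by
      by_contra h
      have := mul_lt_mul_of_pos_left (not_le.1 h) hε
      linarith
    nlinarith
  have ej := tt_succ n l j
  have rng : ∀ i, j + 1 ≤ i → tt n l i ≤ c + 4 * ε → 0 < gg n i ∧
      0 ≤ rr n i / (2 * l ^ 2) * A (-tt n l i - ε) + gg n i * A' (-tt n l i - ε) ∧
      rr n i / (2 * l ^ 2) * A (-tt n l i - -ε) + gg n i * A' (-tt n l i - -ε) ≤ 0 := by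
    intro i hi hti
    obtain ⟨J, rfl⟩ := Nat.exists_eq_add_of_le hi
    have tb : ∀ k ≤ J, |tt n l (j + 1 + k)| + ε ≤ R ∧ -c - δ₀ ≤ -tt n l (j + 1 + k) - ε := by
      intro k hk
      have u1 := tt_mono n hl0 (show j + 1 ≤ j + 1 + k by omega)
      have u2 := tt_mono n hl0 (show j + 1 + k ≤ j + 1 + J by omega)
      have : |tt n l (j + 1 + k)| ≤ R - ε := abs_le.2 ⟨by linarith, by linarith⟩
      exact ⟨by linarith, by linarith⟩
    have co : ∀ k, ∃ η κ κ' : ℝ, k < J → (|η| ≤ δ * (2 / l) ∧ |κ - 1| ≤ δ ∧ |κ' - 1| ≤ δ) ∧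
        gg n (j + 1 + (k + 1)) = (1 - η) * gg n (j + 1 + k) +
          2 / l * κ * (rr n (j + 1 + k) / (2 * l ^ 2)) ∧
        rr n (j + 1 + (k + 1)) / (2 * l ^ 2) = (1 - η) * (rr n (j + 1 + k) / (2 * l ^ 2)) -
          2 / l * κ' * tt n l (j + 1 + k) * gg n (j + 1 + k) := by
      intro k
      by_cases hk : k < J
      · obtain ⟨η, κ, κ', ⟨v1, v2, v3⟩, v4, v5⟩ := coef (by linarith) hn (b := j + 1 + k) (R := R)
          (by linarith [(tb k hk.le).1]) (by linarith)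
        exact ⟨η, κ, κ', fun _ => ⟨⟨v1.trans g4, v2.trans g5, v3.trans g5⟩, v4, v5⟩⟩
      · exact ⟨0, 0, 0, fun h => absurd h hk⟩
    choose η κ κ' co using co
    exact wr_range (g := fun k => gg n (j + 1 + k)) (ρ := fun k => rr n (j + 1 + k) / (2 * l ^ 2))
      (τ := fun k => tt n l (j + 1 + k)) (lo := -c - δ₀) hM hh.le (g2.trans hh₁) hδ.le hδ1 hm
      hε.le hRM g3 hδ2 hbd (fun s u1 u2 => hlo s u1 (abs_le.1 u2).2)
      (fun s u => hst s _ u hh.le g2) (fun k => tt_succ n l (j + 1 + k)) tb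
      (fun k hk => (co k hk).1) (fun k hk => (co k hk).2.1) (fun k hk => (co k hk).2.2)
      (start h1 h2 h3 (fun s hs => s2 s (by linarith)) hε hε1 hW L7 g6 hn a2 a3) J le_rfl
  refine ⟨fun i hti hti' => ?_, fun b hmax => locate_core (b₀ := j + 1) (β := m₂ / M) (R := R) L1
    hn hε hε4 (by linarith) (by linarith) g1 (by positivity) (hθ ▸ L0) (by linarith) ?_
    (fun i hi hti => (rng i hi hti).1) ?_ b hmax⟩
  · have hi : j + 1 ≤ i := by
      by_contra h
      have := tt_mono n hl0 (show i ≤ j by omega)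
      linarith
    obtain ⟨r1, r2, r3⟩ := rng i hi hti'
    have u1 := (abs_le.1 (hbd (-tt n l i - ε) (abs_le.2 ⟨by linarith, by linarith⟩)).2).2
    have u2 := (abs_le.1 (hbd (-tt n l i - -ε) (abs_le.2 ⟨by linarith, by linarith⟩)).2).1
    have u3 := hlo (-tt n l i - ε) (by linarith) (by linarith)
    have u4 := hlo (-tt n l i - -ε) (by linarith) (by linarith)
    have u5 := mul_le_mul_of_nonneg_left u1 r1.le
    have u6 := mul_le_mul_of_nonneg_left u2 r1.le
    refine ⟨r1, ?_⟩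
    rw [div_mul_eq_mul_div M, le_div_iff₀ hm]
    rcases le_total 0 (rr n i / (2 * l ^ 2)) with h | h
    · rw [abs_of_nonneg h]
      have := mul_le_mul_of_nonneg_left u4 h
      linarith
    · rw [abs_of_nonpos h]
      have := mul_le_mul_of_nonneg_left u3 (neg_nonneg.2 h)
      linarith
  · intro i hi hti
    obtain ⟨r1, r2, -⟩ := rng i hi (by linarith)
    have u1 := tt_mono n hl0 hi
    have u2 : |-tt n l i - ε| ≤ R + 1 := abs_le.2 ⟨by linarith, by linarith⟩
    have u3 := (abs_le.1 (hbd _ u2).1).2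
    have u4 := hlo (-tt n l i - ε) (by linarith) (by linarith)
    have u5 : m₁ ≤ -A' (-tt n l i - ε) := hlo₁ (-tt n l i - ε) (by linarith) (by linarith)
    have u6 := mul_le_mul_of_nonneg_left u5 r1.le
    have u7 := mul_pos r1 hm₁
    have p0 : 0 < rr n i / (2 * l ^ 2) :=
      (mul_pos_iff_of_pos_right (hm.trans_le u4)).1 (by linarith)
    have p1 : m₁ / M * gg n i ≤ rr n i / (2 * l ^ 2) := by
      rw [div_mul_eq_mul_div, div_le_iff₀ hM0]
      have := mul_le_mul_of_nonneg_left u3 p0.le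
      linarith
    refine ⟨(div_pos_iff_of_pos_right (by positivity)).1 p0, ?_⟩
    obtain ⟨η, κ, κ', ⟨v1, v2, -⟩, v4, -⟩ := coef (by linarith) hn (b := i) (R := R)
      (abs_le.2 ⟨by linarith, by linarith⟩) (by linarith)
    have w1 := mul_le_mul_of_nonneg_right (abs_le.1 (v1.trans g4)).2 r1.le
    have w2 : 1 / 2 ≤ κ := by linarith [(abs_le.1 (v2.trans g5)).1]
    have w3 := mul_le_mul_of_nonneg_left
      (mul_le_mul w2 p1 (by positivity) (by linarith)) hh.le
    have w4 := mul_le_mul_of_nonneg_right hδ3 (mul_pos hh r1).le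
    have w5 := mul_pos hδ (mul_pos hh r1)
    rw [v4]
    linarith
  · intro i hti hti'
    have hi : j + 1 ≤ i := by
      by_contra h
      have := tt_mono n hl0 (show i ≤ j by omega)
      linarith
    obtain ⟨r1, -, r3⟩ := rng i hi hti'
    have u2 : |-tt n l i - -ε| ≤ R + 1 := abs_le.2 ⟨by linarith, by linarith⟩
    have u3 := (abs_le.1 (hbd _ u2).1).2
    have u4 := hlo (-tt n l i - -ε) (by linarith) (by linarith)
    have u5 := hlo₂ (-tt n l i - -ε) (by linarith) (by linarith)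
    have u6 := mul_le_mul_of_nonneg_left u5 r1.le
    have u7 := mul_pos r1 hm₂
    have p0 : 0 < -(rr n i / (2 * l ^ 2)) :=
      (mul_pos_iff_of_pos_right (hm.trans_le u4)).1 (by linarith)
    have p1 : m₂ / M * gg n i ≤ -(rr n i / (2 * l ^ 2)) := by
      rw [div_mul_eq_mul_div, div_le_iff₀ hM0]
      have := mul_le_mul_of_nonneg_left u3 p0.le
      linarith
    linarith

end Pool.Agent.Lib.MP_f387d3_mp.AI
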