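import Mathlib
import Pool.Agent.Lib.MP_f387d3_mp.AI.Top
import Pool.Agent.Lib.MP_f387d3_mp.AI.Omega

/-!
Every maximiser lies within a bounded number of lattice steps of the position predicted by the
first critical point of the decaying solution of the Airy equation.
-/

namespace Pool.Agent.Lib.MP_f387d3_mp.AI

open Pool.Agent.Lib.MP_f387d3_mp Filter Topology

theorem PP_div {n j : ℕ} (hj : 0 < (n : ℝ) - 2 * j) : PP n j = gg n j ^ 2 +
    (((n : ℝ) - j) / (n - 2 * j) * (gg n j + gg n (j + 1))) ^ 2 := by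
  refine mul_left_cancel₀ (pow_pos hj 2).ne' ?_
  rw [PP_gg]; field_simp

theorem gg_le_of_max {n : ℕ} {l K : ℝ} (hl : 2 ≤ l) (hn : (n : ℝ) ^ 2 = 32 * l ^ 6) {b : ℕ}
    (hb : |tt n l b| ≤ l ^ 2 / 10) (hK : 2 * K ≤ l) (hg : 0 < gg n b)
    (hρ : |rr n b / (2 * l ^ 2)| ≤ K * gg n b) (hmax : ∀ j, PP n j ≤ PP n b) (j : ℕ) :
    |gg n j| ≤ 5 * gg n b := by
  have hl0 : 0 < l := by linarith
  have h3 := pow_pos hl0 3
  obtain ⟨hn1, -⟩ := n_bounds hl0 hn
  have hD := D_eq n hl0 b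
  have k1 := mul_le_mul_of_nonneg_left (abs_le.1 hb).1 hl0.le
  have k2 := mul_le_mul_of_nonneg_left (abs_le.1 hb).2 hl0.le
  have hb0 : 3 / 4 * l ^ 3 ≤ b := by linarith
  rw [abs_div, abs_of_pos (show 0 < 2 * l ^ 2 by positivity), div_le_iff₀ (by positivity)] at hρ
  have k3 := mul_le_mul_of_nonneg_right hK (show 0 ≤ l ^ 2 * gg n b by positivity)
  have k4 := mul_le_mul_of_nonneg_right hb0 hg.le
  have k5 := mul_le_mul_of_nonneg_right (show (n : ℝ) - 2 * b ≤ 41 / 10 * l ^ 3 by linarith) hg.le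
  have k6 := mul_nonneg (show 0 ≤ (n : ℝ) - 2 * b by linarith) hg.le
  have k7 := mul_pos h3 hg
  have e1 : vv n b = -(rr n b + ((n : ℝ) - 2 * b) * gg n b / 2) := by unfold rr; ring
  have v1 : vv n b ^ 2 ≤ (9 / 2 * (b * gg n b)) ^ 2 := by
    rw [← sq_abs]
    refine pow_le_pow_left₀ (abs_nonneg _) ?_ 2
    rw [e1, abs_le]
    constructor <;> linarith [(abs_le.1 hρ).1, (abs_le.1 hρ).2]
  have v2 : PP n b ≤ (5 * gg n b) ^ 2 := by
    refine le_of_mul_le_mul_left ?_ (pow_pos (show (0 : ℝ) < b by linarith) 2)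
    rw [PP_vv]
    have := sq_nonneg ((b : ℝ) * gg n b)
    linarith
  refine le_of_pow_le_pow_left₀ two_ne_zero (by linarith) ?_
  rw [sq_abs]
  refine le_trans ?_ ((hmax j).trans v2)
  rw [PP_eq]
  exact le_add_of_nonneg_left (sq_nonneg _)

theorem gg_ratio {n : ℕ} {l K R : ℝ} (hl : 2 ≤ l) (hn : (n : ℝ) ^ 2 = 32 * l ^ 6) {b : ℕ}
    (hb : |tt n l b| ≤ R) (hR : 12 * R ≤ l ^ 2) (hK : 16 * K ≤ l) (hg : 0 < gg n b)
    (hρ : |rr n b / (2 * l ^ 2)| ≤ K * gg n b) :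
    gg n b ≤ 2 * gg n (b + 1) ∧ gg n (b + 1) ≤ 2 * gg n b := by
  have hl0 : 0 < l := by linarith
  have hR0 := (abs_nonneg _).trans hb
  obtain ⟨η, κ, κ', ⟨v1, v2, -⟩, v4, -⟩ := coef hl hn hb (by linarith)
  have k1 : R / l ^ 2 ≤ 1 / 12 := by rw [div_le_iff₀ (by positivity)]; linarith
  have k2 : |κ| ≤ 2 := abs_le.2 ⟨by linarith [(abs_le.1 v2).1], by linarith [(abs_le.1 v2).2]⟩
  have t1 := abs_le.1 (am (am (abs_of_pos (show 0 < 2 / l by positivity)).le k2) hρ)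
  have t2 := abs_le.1 (am (show |η| ≤ 1 / 4 by linarith) (abs_of_pos hg).le)
  have k3 : 2 / l * 2 * K ≤ 1 / 4 := by
    rw [mul_assoc, div_mul_eq_mul_div, div_le_iff₀ hl0]; linarith
  have k4 := mul_le_mul_of_nonneg_right k3 hg.le
  rw [v4]
  constructor <;> linarith [t1.1, t1.2, t2.1, t2.2]

theorem gg_up {n : ℕ} {l R : ℝ} (hl : 2 ≤ l) (hn : (n : ℝ) ^ 2 = 32 * l ^ 6) {b : ℕ}
    (hb : |tt n l b| ≤ R) (hR0 : 0 < R) (hR : 12 * R ≤ l ^ 2) (hg : 0 < gg n b)
    (hρ : 2 * R * (2 / l * gg n b) ≤ rr n b / (2 * l ^ 2)) : gg n b < gg n (b + 1) := by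
  have hl0 : 0 < l := by linarith
  have hh : 0 < 2 / l := by positivity
  obtain ⟨η, κ, κ', ⟨v1, v2, -⟩, v4, -⟩ := coef hl hn hb (by linarith)
  have k1 : R / l ^ 2 ≤ 1 / 12 := by rw [div_le_iff₀ (by positivity)]; linarith
  have k2 : 1 / 2 ≤ κ := by linarith [(abs_le.1 v2).1]
  have w0 : R / l ^ 2 = (2 / l) ^ 2 * R / 4 := by field_simp; ring
  have w1 := mul_le_mul_of_nonneg_right (abs_le.1 v1).2 hg.le
  have w3 := mul_le_mul_of_nonneg_left (mul_le_mul k2 hρ (by positivity) (by linarith)) hh.le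
  have w4 : 0 < (2 / l) ^ 2 * R * gg n b := by positivity
  rw [w0] at w1
  rw [v4]
  linarith

theorem gg_down {n : ℕ} {l c : ℝ} (hl : 2 ≤ l) (hn : (n : ℝ) ^ 2 = 32 * l ^ 6) {b : ℕ}
    (hc : 0 < c) (h0 : c ≤ tt n l b) (h1 : tt n l b ≤ l ^ 2 / 10) (hg : 0 < gg n b)
    (hr : rr n b ≤ 0) : gg n (b + 1) ≤ (1 - c / (2 * l ^ 2)) * gg n b := by
  have hl0 : 0 < l := by linarith
  have h3 := pow_pos hl0 3
  obtain ⟨a1, a2, -, a4⟩ := near hl hn (b := b) (by rw [abs_of_pos (by linarith)]; exact h1)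
  have hp := ab_pos a1 (show b < n by omega)
  have k1 := mul_le_mul_of_nonneg_left h0 hl0.le
  have k2 := mul_le_mul_of_nonneg_left h1 hl0.le
  have hy : 14 * l ^ 4 * c ≤ yy n b := by
    rw [yy_eq hl0 hn]
    have : l * c * (7 * l ^ 3) ≤ l * tt n l b * (8 * l ^ 3 - l * tt n l b) :=
      mul_le_mul k1 (by linarith) (by linarith) ((mul_pos hl0 hc).le.trans k1)
    linarith
  have hab : ((n : ℝ) - b) * b ≤ 8 * l ^ 6 := by
    rw [ab_eq hl0 hn]; linarith [sq_nonneg (4 * l ^ 3 - l * tt n l b)]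
  have e := gg_succ n b
  have k3 := mul_nonneg (show 0 ≤ (n : ℝ) - 2 * b by linarith) (neg_nonneg.2 hr)
  have k4 : c / (2 * l ^ 2) * (((n : ℝ) - b) * b) ≤ yy n b / 2 := by
    refine (mul_le_mul_of_nonneg_left hab (by positivity)).trans ?_
    have : c / (2 * l ^ 2) * (8 * l ^ 6) = 4 * l ^ 4 * c := by field_simp; ring
    have : 0 < l ^ 4 * c := by positivity
    linarith
  have k5 := mul_le_mul_of_nonneg_right k4 hg.le
  refine le_of_mul_le_mul_left ?_ hp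
  linarith

theorem down_lt {n : ℕ} {l c : ℝ} (hl : 2 ≤ l) (hn : (n : ℝ) ^ 2 = 32 * l ^ 6) {b : ℕ}
    (hc : 0 < c) (hlc : 2 ≤ l * c) (h0 : c ≤ tt n l b) (h1 : tt n l (b + 1) ≤ l ^ 2 / 10)
    (g0 : 0 < gg n b) (g1 : 0 < gg n (b + 1)) (g2 : 0 < gg n (b + 1 + 1)) (r0 : rr n b ≤ 0)
    (r1 : rr n (b + 1) ≤ 0) : PP n (b + 1) < PP n b := by
  have hl0 : 0 < l := by linarith
  have h3 := pow_pos hl0 3
  have hm := tt_mono n hl0 (Nat.le_succ b)
  have d0 := gg_down hl hn hc h0 (hm.trans h1) g0 r0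
  have d1 := gg_down hl hn hc (h0.trans hm) h1 g1 r1
  obtain ⟨-, -, -, a4⟩ := near hl hn (b := b + 1) (by rw [abs_of_pos (by linarith)]; exact h1)
  have hb : (0 : ℝ) ≤ b := Nat.cast_nonneg b
  push_cast at a4
  rw [PP_div (j := b) (by linarith), PP_div (j := b + 1) (by push_cast; linarith)]
  push_cast
  obtain ⟨q, hq⟩ : ∃ q, q = c / (2 * l ^ 2) := ⟨_, rfl⟩
  rw [← hq] at d0 d1
  have q0 : 0 < q := by rw [hq]; positivity
  have q1 : 1 ≤ q * l ^ 3 := by
    have : q * l ^ 3 = l * c / 2 := by rw [hq]; field_simp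
    linarith
  have k : ((n : ℝ) - (b + 1)) / (n - 2 * (b + 1)) * (1 - q) ≤ ((n : ℝ) - b) / (n - 2 * b) := by
    rw [div_mul_eq_mul_div, div_le_div_iff₀ (by linarith) (by linarith)]
    have k1 : (1 - q) * ((n : ℝ) - 2 * b) ≤ n - 2 * (b + 1) := by
      have := mul_le_mul_of_nonneg_left (show 3 * l ^ 3 ≤ (n : ℝ) - 2 * b by linarith) q0.le
      linarith
    calc ((n : ℝ) - (b + 1)) * (1 - q) * (n - 2 * b)
        = ((n : ℝ) - (b + 1)) * ((1 - q) * (n - 2 * b)) := by ring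
      _ ≤ ((n : ℝ) - (b + 1)) * (n - 2 * (b + 1)) :=
          mul_le_mul_of_nonneg_left k1 (by linarith)
      _ ≤ _ := mul_le_mul_of_nonneg_right (by linarith) (by linarith)
  have k0 : 0 ≤ ((n : ℝ) - (b + 1)) / (n - 2 * (b + 1)) := div_nonneg (by linarith) (by linarith)
  have k2 := mul_pos q0 g0
  refine add_lt_add_of_lt_of_le (pow_lt_pow_left₀ (by linarith) g1.le two_ne_zero)
    (pow_le_pow_left₀ (mul_nonneg k0 (by linarith)) ?_ 2)
  calc ((n : ℝ) - (b + 1)) / (n - 2 * (b + 1)) * (gg n (b + 1) + gg n (b + 1 + 1))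
      ≤ ((n : ℝ) - (b + 1)) / (n - 2 * (b + 1)) * ((1 - q) * (gg n b + gg n (b + 1))) :=
        mul_le_mul_of_nonneg_left (by linarith) k0
    _ = ((n : ℝ) - (b + 1)) / (n - 2 * (b + 1)) * (1 - q) * (gg n b + gg n (b + 1)) := by ring
    _ ≤ _ := mul_le_mul_of_nonneg_right k (by linarith)

theorem sharp {A A' : ℝ → ℝ} {c : ℝ} (h1 : ∀ s, HasDerivAt A (A' s) s)
    (h2 : ∀ s, HasDerivAt A' (s * A s) s) (h3 : Tendsto A atTop (𝓝 0)) (hc : 0 < c)
    (h4 : ∀ s, -c ≤ s → 0 < A s) (h5 : A' (-c) = 0) :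
    ∃ K : ℝ, ∀ᶠ l : ℝ in atTop, ∀ n : ℕ, (n : ℝ) ^ 2 = 32 * l ^ 6 → ∀ b : ℕ,
      (∀ j, PP n j ≤ PP n b) → |tt n l b - c| ≤ K * (2 / l) := by
  obtain ⟨s1, δ₀, hδ₀, s2, s3⟩ := airy_signs h1 h2 h3 hc h4 h5
  obtain ⟨ε, hε, hε1, hε3, hε4⟩ : ∃ ε : ℝ, 0 < ε ∧ ε ≤ 1 ∧ 5 * ε ≤ δ₀ ∧ 4 * ε ≤ c := by
    refine ⟨min 1 (min (δ₀ / 5) (c / 4)), by positivity, min_le_left _ _, ?_, ?_⟩
    · linarith [(min_le_right 1 (min (δ₀ / 5) (c / 4))).trans (min_le_left _ _)]
    · linarith [(min_le_right 1 (min (δ₀ / 5) (c / 4))).trans (min_le_right _ _)]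
  obtain ⟨K₀, hK₀, hloc⟩ := locate h1 h2 h3 s1 s2 s3 hε hε1 hε3 hε4
  obtain ⟨R, hR⟩ : ∃ R, R = c + 4 * ε := ⟨_, rfl⟩
  have hR0 : 0 < R := by linarith
  obtain ⟨C, hC, hΩ⟩ := omega_bound h1 h2 h3 (fun s hs => h4 s (by linarith)) hR0.le hK₀
  obtain ⟨M, hM, -, hbd, -⟩ := airy_step h1 h2 R
  obtain ⟨a, ha, sl1, sl2⟩ := airy_slope h1 h2 hc hδ₀ s2 h5
  obtain ⟨K, hK⟩ : ∃ K, a * K = 10 * C + 2 * R * M := ⟨(10 * C + 2 * R * M) / a, by field_simp⟩
  have hRM : 0 < R * M := by positivity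
  have hK0 : 0 < K := (mul_pos_iff_of_pos_left ha).1 (by linarith)
  refine ⟨K + 1, ?_⟩
  filter_upwards [hloc, eventually_ge_atTop 10, eventually_ge_atTop (12 * R),
    eventually_ge_atTop (16 * K₀), eventually_ge_atTop (4 / ε), eventually_ge_atTop (2 / c)]
    with l L0 L1 L2 L3 L4 L5 n hn b hmax
  obtain ⟨rng, hb⟩ := L0 n hn
  rw [← hR] at rng
  obtain ⟨hb1, hb2⟩ := abs_le.1 (hb b hmax)
  have hl0 : 0 < l := by linarith
  have hll : l ≤ l ^ 2 := by nlinarith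
  have hh : 0 < 2 / l := by positivity
  rw [div_le_iff₀ hε] at L4
  rw [div_le_iff₀ hc] at L5
  have g1 : 2 / l ≤ ε / 2 := by rw [div_le_iff₀ hl0]; linarith
  have hKh := mul_pos hK0 hh
  obtain ⟨gb, ρb⟩ := rng b (by linarith) (by linarith)
  have tb : |tt n l b| ≤ R := abs_le.2 ⟨by linarith, by linarith⟩
  have hG := gg_le_of_max (by linarith) hn (b := b) (by linarith) (by linarith) gb ρb hmax
  have Ω := hΩ l n _ L1 (by linarith) hn (fun i u1 u2 => (rng i u1 u2).2) hG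
  have e1 := tt_succ n l b
  rw [abs_le]
  constructor
  · by_contra hcon
    have hcon' : tt n l (b + 1) < c - K * (2 / l) := by linarith [not_le.1 hcon]
    have up : ∀ i, tt n l b ≤ tt n l i → tt n l i ≤ c - K * (2 / l) → gg n b ≤ 2 * gg n i →
        gg n i < gg n (i + 1) := by
      intro i u1 u2 u3
      obtain ⟨gi, -⟩ := rng i (by linarith) (by linarith)
      have ti : |tt n l i| ≤ R := abs_le.2 ⟨by linarith, by linarith⟩
      refine gg_up (by linarith) hn ti hR0 (by linarith) gi ?_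
      have v1 := (abs_le.1 (Ω i (by linarith) (by linarith))).1
      have v2 := mul_le_mul_of_nonneg_left (sl1 (-tt n l i) (by linarith) (by linarith)) gi.le
      have v3 := mul_le_mul_of_nonneg_left (show K * (2 / l) ≤ -tt n l i + c by linarith)
        (mul_pos gi ha).le
      have v4 := mul_le_mul_of_nonneg_left u3 (mul_nonneg hC hh.le)
      have v5 := congrArg (fun x => x * (2 / l * gg n i)) hK
      have v6 : 2 * R * (2 / l * gg n i) * M ≤ rr n i / (2 * l ^ 2) * A (-tt n l i) := by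
        linarith
      have v7 := h4 (-tt n l i) (by linarith)
      have v8 := (abs_le.1 (hbd (-tt n l i) (by rw [abs_neg]; linarith)).1).2
      have v9 : 0 < 2 * R * (2 / l * gg n i) * M := by positivity
      have p0 := (mul_pos_iff_of_pos_right v7).1 (v9.trans_le v6)
      exact le_of_mul_le_mul_right (v6.trans (mul_le_mul_of_nonneg_left v8 p0.le)) (by linarith)
    obtain ⟨-, n2, -⟩ := near (l := l) (by linarith) hn (b := b + 1)
      (abs_le.2 ⟨by linarith, by linarith⟩)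
    exact absurd (hmax (b + 1)) (not_le.2 (right_lt (by omega) gb.le
      (up b le_rfl (by linarith) (by linarith)) (up (b + 1) (by linarith) hcon'.le
        (gg_ratio (by linarith) hn tb (by linarith) L3 gb ρb).1)))
  · by_contra hcon
    obtain ⟨n1, -⟩ := near (l := l) (by linarith) hn (b := b) (by linarith)
    obtain ⟨b, rfl⟩ : ∃ b', b = b' + 1 := ⟨b - 1, by omega⟩
    have e0 := tt_succ n l b
    have hcon' : c + K * (2 / l) < tt n l b := by linarith [not_le.1 hcon]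
    have dn : ∀ i, c + K * (2 / l) ≤ tt n l i → tt n l i ≤ R → gg n (b + 1) ≤ 2 * gg n i →
        rr n i ≤ 0 := by
      intro i u1 u2 u3
      obtain ⟨gi, -⟩ := rng i (by linarith) u2
      have v1 := (abs_le.1 (Ω i (by linarith) u2)).2
      have v2 := mul_le_mul_of_nonneg_left (sl2 (-tt n l i) (by linarith) (by linarith)) gi.le
      have v3 := mul_le_mul_of_nonneg_left (show K * (2 / l) ≤ -c - -tt n l i by linarith)
        (mul_pos gi ha).le
      have v4 := mul_le_mul_of_nonneg_left u3 (mul_nonneg hC hh.le)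
      have v5 := congrArg (fun x => x * (2 / l * gg n i)) hK
      have v9 : 0 < R * M * (2 / l * gg n i) := by positivity
      have v6 : rr n i / (2 * l ^ 2) * A (-tt n l i) < 0 := by linarith
      by_contra hr
      exact absurd v6 (not_lt.2 (mul_pos (div_pos (not_le.1 hr) (by positivity))
        (s2 _ (by linarith))).le)
    obtain ⟨g0, ρ0⟩ := rng b (by linarith) (by linarith)
    exact absurd (hmax b) (not_le.2 (down_lt (by linarith) hn hc (by linarith) (by linarith)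
      (by linarith) g0 gb (rng (b + 1 + 1) (by linarith) (by linarith)).1
      (dn b hcon'.le (by linarith) (gg_ratio (R := R) (by linarith) hn
        (abs_le.2 ⟨by linarith, by linarith⟩) (by linarith) L3 g0 ρ0).2)
      (dn (b + 1) (by linarith) (by linarith) (by linarith))))

end Pool.Agent.Lib.MP_f387d3_mp.AI
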