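import Mathlib
import Pool.Agent.Lib.MP_f387d3_mp.AI.Sharp

/-!
The position of the maximum up to a bounded error.
-/

namespace Pool.Agent.Lib.MP_f387d3_mp.AI

open Pool.Agent.Lib.MP_f387d3_mp Filter Topology

/-- the scale of the peak -/
noncomputable def sc (n : ℕ) : ℝ := (n : ℝ) ^ ((1 : ℝ) / 3) / (2 : ℝ) ^ ((5 : ℝ) / 6)

theorem two_pow_six : ((2 : ℝ) ^ ((5 : ℝ) / 6)) ^ 6 = 32 := by
  rw [← Real.rpow_natCast, ← Real.rpow_mul (by norm_num)]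
  norm_num

theorem sc_six (n : ℕ) : (n : ℝ) ^ 2 = 32 * sc n ^ 6 := by
  unfold sc
  rw [div_pow, two_pow_six, ← Real.rpow_natCast ((n : ℝ) ^ ((1 : ℝ) / 3)),
    ← Real.rpow_mul (Nat.cast_nonneg n)]
  norm_num
  ring

theorem sc_nonneg (n : ℕ) : 0 ≤ sc n := by unfold sc; positivity

theorem sc_cube (n : ℕ) : 4 * sc n ^ 3 = n / Real.sqrt 2 := by
  have h := sc_nonneg n
  refine (pow_left_inj₀ (by positivity) (by positivity) two_ne_zero).1 ?_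
  rw [div_pow, Real.sq_sqrt (by norm_num), sc_six]; ring

theorem cube_tendsto : Tendsto (fun n : ℕ => (n : ℝ) ^ ((1 : ℝ) / 3)) atTop atTop :=
  (tendsto_rpow_atTop (by norm_num)).comp tendsto_natCast_atTop_atTop

theorem sc_tendsto : Tendsto sc atTop atTop :=
  cube_tendsto.atTop_div_const (by positivity)

theorem exists_index_of_max (n : ℕ) (x : ℤ)
    (hx : ∀ y : ℤ, ‖T n true y‖ ^ 2 ≤ ‖T n true x‖ ^ 2) :
    ∃ b : ℕ, x = n + 1 - 2 * (b : ℤ) ∧ ∀ j, PP n j ≤ PP n b := by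
  have hzero : T n true x ≠ 0 := by
    intro h
    have h1 := hx ((n : ℤ) + 1)
    rw [T_top, h] at h1
    norm_num at h1
  have hpar : ¬ (x + n) % 2 = 0 := fun h => hzero (T_parity n true x h)
  have htop : x ≤ n + 1 := not_lt.1 fun h => hzero (T_far n x h)
  obtain ⟨b, hb⟩ : ∃ b : ℕ, x = n + 1 - 2 * (b : ℤ) := ⟨((n + 1 - x) / 2).toNat, by omega⟩
  exact ⟨b, hb, fun j => by unfold PP; rw [← hb]; exact hx _⟩

theorem index_le {n b : ℕ} (hmax : ∀ j, PP n j ≤ PP n b) : b ≤ n := by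
  by_contra h
  have ha : (n : ℤ) - b < 0 := by omega
  have h0 := hmax 0
  have e : PP n 0 = 1 := by
    unfold PP
    rw [← T_top n]; simp
  rw [e, PP_eq] at h0
  unfold gg at h0
  rw [G_neg_left _ ha, G_neg_left _ ha] at h0
  norm_num at h0

theorem bounded {A A' : ℝ → ℝ} {c : ℝ} (h1 : ∀ s, HasDerivAt A (A' s) s)
    (h2 : ∀ s, HasDerivAt A' (s * A s) s) (h3 : Tendsto A atTop (𝓝 0)) (hc : 0 < c)
    (h4 : ∀ s, -c ≤ s → 0 < A s) (h5 : A' (-c) = 0) : ∃ C : ℝ, ∀ (n : ℕ) (x : ℤ),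
      (∀ y : ℤ, ‖T n true y‖ ^ 2 ≤ ‖T n true x‖ ^ 2) →
        |(x : ℝ) - (((n : ℝ) + 1) / Real.sqrt 2 -
          c / (2 : ℝ) ^ ((5 : ℝ) / 6) * ((n : ℝ) + 1) ^ ((1 : ℝ) / 3))| ≤ C := by
  obtain ⟨K, hK⟩ := sharp h1 h2 h3 hc h4 h5
  obtain ⟨n₀, hn₀⟩ := eventually_atTop.1
    ((sc_tendsto.eventually hK).and (sc_tendsto.eventually_gt_atTop 0))
  obtain ⟨γ, hγ⟩ : ∃ γ, γ = c / (2 : ℝ) ^ ((5 : ℝ) / 6) := ⟨_, rfl⟩
  have hγ0 : 0 ≤ γ := by rw [hγ]; positivity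
  have hs1 : 1 ≤ Real.sqrt 2 := Real.one_le_sqrt.2 (by norm_num)
  have hs2 : 1 / Real.sqrt 2 ≤ 1 := by rw [div_le_one (by linarith)]; exact hs1
  have hs3 : 0 ≤ 1 / Real.sqrt 2 := by positivity
  refine ⟨max (2 * K + 1 + γ) ((2 + γ) * (n₀ + 1)), fun n x hx => ?_⟩
  obtain ⟨b, hb, hmax⟩ := exists_index_of_max n x hx
  have e2 : (x : ℝ) = n + 1 - 2 * b := by exact_mod_cast hb
  have hn0 : (0 : ℝ) ≤ n := Nat.cast_nonneg n
  rw [← hγ]
  rcases le_or_gt n₀ n with h | h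
  · refine le_trans ?_ (le_max_left _ _)
    obtain ⟨k1, hl⟩ := hn₀ n h
    have k2 := mul_le_mul_of_nonneg_left (k1 n (sc_six n) b hmax) hl.le
    have k3 : sc n * (K * (2 / sc n)) = 2 * K := by field_simp
    rw [k3, ← abs_of_pos hl, ← abs_mul, abs_of_pos hl, abs_le] at k2
    have e1 := D_eq n hl b
    have e3 : sc n * c = γ * (n : ℝ) ^ ((1 : ℝ) / 3) := by rw [hγ]; unfold sc; ring
    have e4 : (n : ℝ) ^ ((1 : ℝ) / 3) ≤ ((n : ℝ) + 1) ^ ((1 : ℝ) / 3) :=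
      Real.rpow_le_rpow hn0 (by linarith) (by norm_num)
    have e5 : ((n : ℝ) + 1) ^ ((1 : ℝ) / 3) ≤ (n : ℝ) ^ ((1 : ℝ) / 3) + 1 := by
      have := Real.rpow_add_le_add_rpow (p := (1 : ℝ) / 3) hn0 zero_le_one (by norm_num)
        (by norm_num)
      rwa [Real.one_rpow] at this
    have e6 := mul_le_mul_of_nonneg_left e4 hγ0
    have e7 := mul_le_mul_of_nonneg_left e5 hγ0
    rw [add_div, ← sc_cube, abs_le]
    constructor <;> linarith [k2.1, k2.2]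
  · refine le_trans ?_ (le_max_right _ _)
    have k1 : (n : ℝ) ≤ n₀ := by exact_mod_cast h.le
    have k2 : (b : ℝ) ≤ n := by exact_mod_cast index_le hmax
    have k3 : (0 : ℝ) ≤ b := Nat.cast_nonneg b
    have k4 : ((n : ℝ) + 1) / Real.sqrt 2 ≤ n + 1 := div_le_self (by linarith) hs1
    have k5 : 0 ≤ ((n : ℝ) + 1) / Real.sqrt 2 := by positivity
    have k6 : ((n : ℝ) + 1) ^ ((1 : ℝ) / 3) ≤ n₀ + 1 := by
      refine le_trans ?_ (add_le_add k1 le_rfl)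
      have := Real.rpow_le_rpow_of_exponent_le (show (1 : ℝ) ≤ n + 1 by linarith)
        (show (1 : ℝ) / 3 ≤ 1 by norm_num)
      rwa [Real.rpow_one] at this
    have k7 := mul_le_mul_of_nonneg_left k6 hγ0
    have k8 : 0 ≤ γ * ((n : ℝ) + 1) ^ ((1 : ℝ) / 3) := by positivity
    have k9 : 0 ≤ γ * ((n₀ : ℝ) + 1) := by positivity
    rw [abs_le]
    constructor <;> linarith

end Pool.Agent.Lib.MP_f387d3_mp.AI
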